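import Mathlib

/-!
Growth of iterated logarithms.
-/

open Filter Topology Asymptotics

namespace Pool.Agent.Helper79.LC

lemma tend_log : Tendsto (fun n : ℕ => Real.log n) atTop atTop :=
  Real.tendsto_log_atTop.comp tendsto_natCast_atTop_atTop

lemma tend_loglog : Tendsto (fun n : ℕ => Real.log (Real.log n)) atTop atTop :=
  Real.tendsto_log_atTop.comp tend_log

/-- polynomials are dominated by exponentials -/
lemma ev_pow_exp (C : ℝ) (k : ℕ) {b : ℝ} (hb : 0 < b) :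
    ∀ᶠ x : ℝ in atTop, C * x ^ k ≤ Real.exp (b * x) := by
  have h := isLittleO_pow_exp_pos_mul_atTop k hb
  have h2 := h.def (show (0 : ℝ) < 1 / (|C| + 1) by positivity)
  filter_upwards [h2, eventually_ge_atTop 0] with x hx hx0
  rw [Real.norm_of_nonneg (by positivity), Real.norm_of_nonneg (Real.exp_pos _).le,
    div_mul_eq_mul_div, one_mul, le_div_iff₀ (by positivity)] at hx
  have : C * x ^ k ≤ (|C| + 1) * x ^ k := by
    gcongr
    linarith [le_abs_self C]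
  linarith

lemma ev_c3 (T : ℝ) : ∀ᶠ n : ℕ in atTop,
    2 * Real.log T + √(Real.log n) + 2 ≤ Real.log n := by
  have h : ∀ᶠ x : ℝ in atTop, 2 * Real.log T + √x + 2 ≤ x := by
    filter_upwards [eventually_ge_atTop (4 + (4 * Real.log T + 4) ^ 2)] with x hx
    have hx0 : 0 ≤ x := by
      have : 0 ≤ (4 * Real.log T + 4) ^ 2 := by positivity
      linarith
    have h1 : √x * √x = x := Real.mul_self_sqrt hx0
    have h2 : 2 ≤ √x := by
      apply Real.le_sqrt_of_sq_le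
      nlinarith [sq_nonneg (4 * Real.log T + 4)]
    have h3 : |4 * Real.log T + 4| ≤ √x := by
      apply Real.le_sqrt_of_sq_le
      rw [sq_abs]; linarith
    have h4 := le_abs_self (4 * Real.log T + 4)
    nlinarith
  exact tend_log.eventually h

lemma ev_c5 (T : ℝ) (hT : 1 ≤ T) : ∀ᶠ n : ℕ in atTop,
    64 * Real.exp (2 * √(Real.log n)) * T ^ 4 * Real.log n ^ 5 ≤ √(n : ℝ) := by
  have h : ∀ᶠ x : ℝ in atTop, 64 * Real.exp (2 * √x) * T ^ 4 * x ^ 5 ≤ Real.exp (x / 2) := by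
    filter_upwards [ev_pow_exp (64 * T ^ 4) 5 (show (0 : ℝ) < 1 / 4 by norm_num),
      eventually_ge_atTop 64] with x hx hx64
    have h1 : √x * √x = x := Real.mul_self_sqrt (by linarith)
    have h2 : 8 ≤ √x := by
      apply Real.le_sqrt_of_sq_le
      linarith
    calc 64 * Real.exp (2 * √x) * T ^ 4 * x ^ 5 = Real.exp (2 * √x) * (64 * T ^ 4 * x ^ 5) := by ring
      _ ≤ Real.exp (1 / 4 * x) * Real.exp (1 / 4 * x) :=
          mul_le_mul (Real.exp_le_exp.mpr (by nlinarith)) hx (by positivity) (by positivity)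
      _ = _ := by rw [← Real.exp_add]; ring_nf
  filter_upwards [tend_log.eventually h, eventually_ge_atTop 1] with n hn hn1
  refine hn.trans (le_of_eq ?_)
  have hn0 : (0 : ℝ) < n := by exact_mod_cast hn1
  rw [← Real.log_sqrt hn0.le, Real.exp_log (Real.sqrt_pos.mpr hn0)]

lemma ev_c6 (T : ℝ) (hT : 1 ≤ T) : ∀ᶠ n : ℕ in atTop,
    153600 * T ^ 8 * Real.log n ^ 7 * Real.exp (2 * √(Real.log n)) ≤ (n : ℝ) := by
  have h : ∀ᶠ x : ℝ in atTop, 153600 * T ^ 8 * x ^ 7 * Real.exp (2 * √x) ≤ Real.exp x := by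
    filter_upwards [ev_pow_exp (153600 * T ^ 8) 7 (show (0 : ℝ) < 1 / 2 by norm_num),
      eventually_ge_atTop 64] with x hx hx64
    have h1 : √x * √x = x := Real.mul_self_sqrt (by linarith)
    have h2 : 8 ≤ √x := by
      apply Real.le_sqrt_of_sq_le
      linarith
    calc 153600 * T ^ 8 * x ^ 7 * Real.exp (2 * √x) ≤ Real.exp (1 / 2 * x) * Real.exp (1 / 2 * x) :=
          mul_le_mul hx (Real.exp_le_exp.mpr (by nlinarith)) (by positivity) (by positivity)
      _ = _ := by rw [← Real.exp_add]; ring_nf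
  filter_upwards [tend_log.eventually h, eventually_ge_atTop 1] with n hn hn1
  refine hn.trans (le_of_eq ?_)
  have hn0 : (0 : ℝ) < n := by exact_mod_cast hn1
  rw [Real.exp_log hn0]

/-- the number of scales -/
noncomputable def sca (n : ℕ) : ℕ := ⌊Real.log (Real.log n) / 4⌋₊

lemma ev_sca : ∀ᶠ n : ℕ in atTop, Real.log (Real.log n) ≤ 2 ^ sca n ∧
    (2 : ℝ) ^ (2 * sca n) ≤ √(Real.log n) ∧ 3 ≤ sca n ∧
    (sca n : ℝ) ≤ Real.log (Real.log n) ∧ Real.log (Real.log n) ≤ 8 * sca n := by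
  have h : ∀ᶠ x : ℝ in atTop, x ≤ 2 ^ ⌊x / 4⌋₊ ∧ (2 : ℝ) ^ (2 * ⌊x / 4⌋₊) ≤ Real.exp (x / 2) ∧
      3 ≤ ⌊x / 4⌋₊ ∧ (⌊x / 4⌋₊ : ℝ) ≤ x ∧ x ≤ 8 * ⌊x / 4⌋₊ := by
    filter_upwards [ev_pow_exp 2 1 (show (0 : ℝ) < 0.17 by norm_num),
      eventually_ge_atTop 16] with x hx hx16
    have h0 : 0 ≤ x / 4 := by linarith
    have h1 := Nat.floor_le h0
    have h2 := Nat.lt_floor_add_one (x / 4)
    have h3 := Real.log_two_gt_d9
    have h4 := Real.log_two_lt_d9
    have h5 : (2 : ℝ) ^ ⌊x / 4⌋₊ = Real.exp (⌊x / 4⌋₊ * Real.log 2) := by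
      rw [Real.exp_nat_mul, Real.exp_log (by norm_num)]
    have h6 : (2 : ℝ) ^ (2 * ⌊x / 4⌋₊) = Real.exp (2 * ⌊x / 4⌋₊ * Real.log 2) := by
      rw [pow_mul', h5, ← Real.exp_nat_mul]; push_cast; ring_nf
    refine ⟨?_, ?_, ?_, by linarith, by linarith⟩
    · have h7 : Real.exp (0.17 * x) ≤ 2 * 2 ^ ⌊x / 4⌋₊ := by
        have h8 : (2 : ℝ) * 2 ^ ⌊x / 4⌋₊ = Real.exp ((⌊x / 4⌋₊ + 1) * Real.log 2) := by
          rw [h5, add_mul, Real.exp_add, one_mul, Real.exp_log (by norm_num)]; ring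
        rw [h8]
        apply Real.exp_le_exp.mpr
        nlinarith
      rw [pow_one] at hx
      linarith
    · rw [h6]
      apply Real.exp_le_exp.mpr
      nlinarith
    · apply Nat.le_floor
      push_cast; linarith
  filter_upwards [tend_loglog.eventually h, tend_log.eventually (eventually_ge_atTop 1)] with n hn hn1
  obtain ⟨h1, h2, h3, h4, h5⟩ := hn
  refine ⟨h1, ?_, h3, h4, h5⟩
  refine h2.trans (le_of_eq ?_)
  have hn0 : (0 : ℝ) < Real.log n := by linarith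
  rw [← Real.log_sqrt hn0.le, Real.exp_log (Real.sqrt_pos.mpr hn0)]

end Pool.Agent.Helper79.LC
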