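import Pool.Agent.Helper79.LD.Kern
import Pool.Agent.Helper79.LC.Code

/-!
Cells for points outside the unit disc, of size proportional to the distance to the disc, and the
number of multisets of cells.
-/

open Finset

namespace Pool.Agent.Helper79.LC

/-- distance to the disc, with a floor -/
noncomputable def nu (ε : ℝ) (a : ℂ) : ℝ := ‖a‖ - 1 + ε

/-- dyadic level -/
noncomputable def lv (ε : ℝ) (a : ℂ) : ℕ := Nat.log 2 ⌊nu ε a / ε⌋₊

/-- cell size -/
noncomputable def cl (κ ε : ℝ) (a : ℂ) : ℝ := κ * ε * 2 ^ lv ε a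

/-- code of a point -/
noncomputable def cd (κ ε : ℝ) (a : ℂ) : ℕ × ℕ × ℕ :=
  (lv ε a, ⌊(‖a‖ - 1) / cl κ ε a⌋₊, ⌊(a.arg + Real.pi) / cl κ ε a⌋₊)

lemma nu_gt {ε : ℝ} {a : ℂ} (ha : 1 < ‖a‖) : ε < nu ε a := by rw [nu]; linarith

lemma le_lv {ε : ℝ} (hε : 0 < ε) {a : ℂ} (ha : 1 < ‖a‖) : ε * 2 ^ lv ε a ≤ nu ε a := by
  have h1 : 1 ≤ nu ε a / ε := by
    rw [le_div_iff₀ hε]; linarith [nu_gt (ε := ε) ha]
  have h2 : ⌊nu ε a / ε⌋₊ ≠ 0 := by
    have := Nat.le_floor (α := ℝ) (n := 1) (by simpa using h1)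
    omega
  have h3 := Nat.pow_log_le_self 2 h2
  have h4 : ((2 ^ Nat.log 2 ⌊nu ε a / ε⌋₊ : ℕ) : ℝ) ≤ nu ε a / ε :=
    (Nat.cast_le.mpr h3).trans (Nat.floor_le (by linarith))
  push_cast at h4
  rw [le_div_iff₀ hε] at h4
  rw [lv, mul_comm]
  exact h4

lemma lv_lt {ε : ℝ} (hε : 0 < ε) {a : ℂ} : nu ε a < ε * 2 ^ (lv ε a + 1) := by
  have h3 := Nat.lt_pow_succ_log_self (b := 2) (by norm_num) ⌊nu ε a / ε⌋₊
  have h4 : ((⌊nu ε a / ε⌋₊ + 1 : ℕ) : ℝ) ≤ ((2 ^ (lv ε a + 1) : ℕ) : ℝ) := Nat.cast_le.mpr h3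
  have h5 := Nat.lt_floor_add_one (nu ε a / ε)
  push_cast at h4
  rw [mul_comm, ← div_lt_iff₀ hε]
  linarith

lemma cz_sub_le (s t : ℝ) : ‖cz s - cz t‖ ≤ |s - t| := by
  have h1 : cz s - cz t = cz t * (Complex.exp (Complex.I * (s - t : ℝ)) - 1) := by
    rw [cz, cz, mul_sub, mul_one, ← Complex.exp_add]
    congr 2
    push_cast; ring
  rw [h1, norm_mul, norm_cz, one_mul]
  exact Real.norm_exp_I_mul_ofReal_sub_one_le

lemma floor_close {x y : ℝ} (hx : 0 ≤ x) (hy : 0 ≤ y) (h : ⌊x⌋₊ = ⌊y⌋₊) : |x - y| ≤ 1 := by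
  have h1 := Nat.floor_le hx
  have h2 := Nat.floor_le hy
  have h3 := Nat.lt_floor_add_one x
  have h4 := Nat.lt_floor_add_one y
  rw [h] at h1 h3
  rw [abs_le]
  constructor <;> linarith

lemma cd_close {κ ε T : ℝ} (hκ : 0 < κ) (hε : 0 < ε) {a b : ℂ} (ha : 1 < ‖a‖) (hb : 1 < ‖b‖)
    (hbT : ‖b‖ ≤ T) (h : cd κ ε a = cd κ ε b) : ‖a - b‖ ≤ (1 + T) * κ * nu ε a := by
  simp only [cd, Prod.mk.injEq] at h
  obtain ⟨h1, h2, h3⟩ := h
  have hc : cl κ ε b = cl κ ε a := by rw [cl, cl, h1]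
  rw [hc] at h2 h3
  have hcl : 0 < cl κ ε a := by rw [cl]; positivity
  have hcn : cl κ ε a ≤ κ * nu ε a := by
    rw [cl, mul_assoc]
    gcongr
    exact le_lv hε ha
  have harg : ∀ z : ℂ, 0 ≤ z.arg + Real.pi := fun z => by linarith [Complex.neg_pi_lt_arg z]
  have h4 := floor_close (div_nonneg (by linarith) hcl.le) (div_nonneg (by linarith) hcl.le) h2
  have h5 := floor_close (div_nonneg (harg a) hcl.le) (div_nonneg (harg b) hcl.le) h3
  rw [← sub_div, abs_div, abs_of_pos hcl, div_le_one hcl] at h4 h5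
  have h4' : |‖a‖ - ‖b‖| ≤ cl κ ε a := by
    have : ‖a‖ - 1 - (‖b‖ - 1) = ‖a‖ - ‖b‖ := by ring
    rwa [this] at h4
  have h5' : |a.arg - b.arg| ≤ cl κ ε a := by
    have : a.arg + Real.pi - (b.arg + Real.pi) = a.arg - b.arg := by ring
    rwa [this] at h5
  have e1 : a = ‖a‖ * cz a.arg := (Complex.norm_mul_exp_arg_mul_I a).symm
  have e2 : b = ‖b‖ * cz b.arg := (Complex.norm_mul_exp_arg_mul_I b).symm
  have e3 : a - b = ((‖a‖ - ‖b‖ : ℝ) : ℂ) * cz a.arg + (‖b‖ : ℂ) * (cz a.arg - cz b.arg) := by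
    conv_lhs => rw [e1, e2]
    push_cast; ring
  have e4 : ‖a - b‖ ≤ cl κ ε a + T * cl κ ε a := by
    rw [e3]
    refine (norm_add_le _ _).trans ?_
    rw [norm_mul, norm_mul, norm_cz, mul_one, Complex.norm_real, Complex.norm_real,
      Real.norm_eq_abs, Real.norm_of_nonneg (norm_nonneg b)]
    have h6 := (cz_sub_le a.arg b.arg).trans h5'
    have hT : 0 ≤ T := (norm_nonneg b).trans hbT
    have h7 : ‖b‖ * ‖cz a.arg - cz b.arg‖ ≤ T * cl κ ε a := by gcongr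
    linarith
  have hT : 0 ≤ T := (norm_nonneg b).trans hbT
  calc ‖a - b‖ ≤ (1 + T) * cl κ ε a := by linarith
    _ ≤ (1 + T) * (κ * nu ε a) := by gcongr
    _ = _ := by ring

/-- bounds for the components of the code -/
lemma cd_bound {κ ε T : ℝ} (hκ : 0 < κ) (hε : 0 < ε) (hε1 : ε ≤ 1) {a : ℂ} (ha : 1 < ‖a‖)
    (haT : ‖a‖ ≤ T) {N A B : ℕ} (hN : T ≤ ε * N) (hA : 2 ≤ κ * A) (hB : 7 ≤ κ * ε * B) :
    (cd κ ε a).1 ≤ Nat.log 2 N ∧ (cd κ ε a).2.1 ≤ A ∧ (cd κ ε a).2.2 ≤ B := by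
  have h1 := le_lv hε ha
  have h2 := lv_lt hε (a := a)
  have hcl : 0 < cl κ ε a := by rw [cl]; positivity
  have hpow : (1 : ℝ) ≤ 2 ^ lv ε a := one_le_pow₀ (by norm_num)
  refine ⟨?_, ?_, ?_⟩
  · simp only [cd]
    rw [lv]
    apply Nat.log_mono_right
    rw [← Nat.floor_natCast (R := ℝ) N]
    apply Nat.floor_le_floor
    rw [div_le_iff₀ hε]
    have : nu ε a ≤ T := by rw [nu]; linarith
    linarith
  · simp only [cd]
    rw [← Nat.floor_natCast (R := ℝ) A]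
    apply Nat.floor_le_floor
    rw [div_le_iff₀ hcl, cl]
    rw [nu, pow_succ] at h2
    have : ε * 2 ^ lv ε a * 2 ≤ ε * 2 ^ lv ε a * (κ * A) := by gcongr
    linarith
  · simp only [cd]
    rw [← Nat.floor_natCast (R := ℝ) B]
    apply Nat.floor_le_floor
    rw [div_le_iff₀ hcl, cl]
    have h3 := Complex.arg_le_pi a
    have h4 := Real.pi_lt_d2
    have h5 : κ * ε * B * 1 ≤ κ * ε * B * 2 ^ lv ε a := by gcongr
    linarith

/-- padding -/
noncomputable def pad {ι : Type*} (s : ℕ) (v : Multiset ι) : Sym (Option ι) s := by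
  classical
  exact if hv : Multiset.card v ≤ s then
        Sym.mk (v.map some + Multiset.replicate (s - Multiset.card v) none) (by
          simp; omega)
      else Sym.replicate s none

lemma pad_val {ι : Type*} {s : ℕ} {v : Multiset ι} (hv : Multiset.card v ≤ s) :
    (pad s v : Multiset (Option ι)) = v.map some + Multiset.replicate (s - Multiset.card v) none := by
  rw [pad, dif_pos hv, Sym.coe_mk]

lemma card_codes {α ι : Type*} [Fintype ι] [DecidableEq ι] (F : Finset α) (w : α → Multiset ι)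
    (s : ℕ) (hs : 1 ≤ s) (h : ∀ f ∈ F, Multiset.card (w f) ≤ s) :
    (#(F.image w) : ℝ) ≤ (Real.exp 1 * (Fintype.card ι + 1 + s) / s) ^ s := by
  classical
  have h1 : #(F.image w) ≤ #((univ : Finset (Option ι)).sym s) := by
    apply card_le_card_of_injOn (pad s)
    · intro v _
      rw [mem_coe, Finset.mem_sym_iff]
      intro a _
      exact mem_univ a
    · intro v hv v' hv' hvv
      obtain ⟨f, hf, rfl⟩ := mem_image.mp hv
      obtain ⟨g, hg, rfl⟩ := mem_image.mp hv'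
      have h2 := congrArg (fun x : Sym (Option ι) s => Multiset.filterMap id (x : Multiset (Option ι))) hvv
      have h3 : ∀ v : Multiset ι, Multiset.filterMap id
          (v.map some + Multiset.replicate (s - Multiset.card v) none) = v := by
        intro v
        rw [Multiset.filterMap_add]
        have e1 : Multiset.filterMap id (Multiset.replicate (s - Multiset.card v) (none : Option ι))
            = 0 := by
          rw [Multiset.eq_zero_iff_forall_notMem]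
          intro x hx
          rw [Multiset.mem_filterMap] at hx
          obtain ⟨y, hy, hy2⟩ := hx
          rw [Multiset.eq_of_mem_replicate hy] at hy2
          simp at hy2
        rw [e1, add_zero, Multiset.filterMap_map]
        exact Multiset.filterMap_some v
      beta_reduce at h2
      rw [pad_val (h f hf), pad_val (h g hg), h3, h3] at h2
      exact h2
  have h2 := card_sym_le (ι := Option ι) s hs
  have h3 : (#(F.image w) : ℝ) ≤ #((univ : Finset (Option ι)).sym s) := by exact_mod_cast h1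
  refine h3.trans (h2.trans (le_of_eq ?_))
  rw [Fintype.card_option]
  push_cast
  rfl

/-- The code of a point inside a fixed box. -/
noncomputable def cf (J A B : ℕ) (κ ε : ℝ) (a : ℂ) : Fin (J + 1) × Fin (A + 1) × Fin (B + 1) :=
  (Fin.ofNat (J + 1) (cd κ ε a).1, Fin.ofNat (A + 1) (cd κ ε a).2.1,
    Fin.ofNat (B + 1) (cd κ ε a).2.2)

lemma cf_inj {J A B : ℕ} {κ ε : ℝ} {a b : ℂ}
    (ha : (cd κ ε a).1 ≤ J ∧ (cd κ ε a).2.1 ≤ A ∧ (cd κ ε a).2.2 ≤ B)
    (hb : (cd κ ε b).1 ≤ J ∧ (cd κ ε b).2.1 ≤ A ∧ (cd κ ε b).2.2 ≤ B)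
    (h : cf J A B κ ε a = cf J A B κ ε b) : cd κ ε a = cd κ ε b := by
  have key : ∀ N x y : ℕ, x ≤ N → y ≤ N → Fin.ofNat (N + 1) x = Fin.ofNat (N + 1) y → x = y := by
    intro N x y hx hy hxy
    have := congrArg Fin.val hxy
    rw [Fin.val_ofNat, Fin.val_ofNat, Nat.mod_eq_of_lt (by omega), Nat.mod_eq_of_lt (by omega)]
      at this
    exact this
  simp only [cf, Prod.mk.injEq] at h
  have h1 := key _ _ _ ha.1 hb.1 h.1
  have h2 := key _ _ _ ha.2.1 hb.2.1 h.2.1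
  have h3 := key _ _ _ ha.2.2 hb.2.2 h.2.2
  exact Prod.ext h1 (Prod.ext h2 h3)

/-- Equal codes give nearby multisets. -/
theorem rel_of_code {κ ε T : ℝ} (hκ : 0 < κ) (hε : 0 < ε) (hε1 : ε ≤ 1) {N A B : ℕ}
    (hN : T ≤ ε * N) (hA : 2 ≤ κ * A) (hB : 7 ≤ κ * ε * B) {m m' : Multiset ℂ}
    (hm : ∀ a ∈ m, 1 < ‖a‖ ∧ ‖a‖ ≤ T) (hm' : ∀ a ∈ m', 1 < ‖a‖ ∧ ‖a‖ ≤ T)
    (h : m.map (cf (Nat.log 2 N) A B κ ε) = m'.map (cf (Nat.log 2 N) A B κ ε)) :
    Multiset.Rel (Near T fun a => (1 + T) * κ * nu ε a) m m' := by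
  rw [← Multiset.rel_eq, Multiset.rel_map] at h
  refine h.mono ?_
  intro a ha b hb hab
  obtain ⟨a1, a2⟩ := hm a ha
  obtain ⟨b1, b2⟩ := hm' b hb
  have h1 := cf_inj (cd_bound hκ hε hε1 a1 a2 hN hA hB) (cd_bound hκ hε hε1 b1 b2 hN hA hB) hab
  have h2 := cd_close hκ hε a1 b1 b2 h1
  have hT : 0 < 1 + T := by linarith
  have hnu : 0 < nu ε a := hε.trans (nu_gt a1)
  exact ⟨a1, b1, a2, b2, by positivity, h2⟩

end Pool.Agent.Helper79.LC
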