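import Pool.Agent.Helper79.LC.PS

/-!
Power series with summable coefficients on the unit circle.
-/

open Finset PowerSeries MeasureTheory intervalIntegral

namespace Pool.Agent.Helper79.LC

/-- summable coefficients -/
def Smb (F : ℂ⟦X⟧) : Prop := Summable fun n => ‖coeff n F‖

/-- point on the unit circle -/
noncomputable def cz (t : ℝ) : ℂ := Complex.exp (t * Complex.I)

lemma norm_cz (t : ℝ) : ‖cz t‖ = 1 := Complex.norm_exp_ofReal_mul_I t

lemma continuous_cz : Continuous cz := by unfold cz; fun_prop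

/-- value on the unit circle -/
noncomputable def ev (F : ℂ⟦X⟧) (t : ℝ) : ℂ := ∑' n, coeff n F * cz t ^ n

lemma Smb.summable_norm {F : ℂ⟦X⟧} (hF : Smb F) (t : ℝ) :
    Summable fun n => ‖coeff n F * cz t ^ n‖ := by
  refine (hF : Summable _).congr fun n => ?_
  rw [norm_mul, norm_pow, norm_cz, one_pow, mul_one]

lemma Smb.mul {F G : ℂ⟦X⟧} (hF : Smb F) (hG : Smb G) : Smb (F * G) := by
  have h := summable_norm_sum_mul_antidiagonal_of_summable_norm hF hG
  refine h.congr fun n => ?_
  rw [coeff_mul]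

lemma ev_mul {F G : ℂ⟦X⟧} (hF : Smb F) (hG : Smb G) (t : ℝ) : ev (F * G) t = ev F t * ev G t := by
  rw [ev, ev, ev, tsum_mul_tsum_eq_tsum_sum_antidiagonal_of_summable_norm (hF.summable_norm t)
    (hG.summable_norm t)]
  refine tsum_congr fun n => ?_
  rw [coeff_mul, sum_mul]
  refine sum_congr rfl fun p hp => ?_
  rw [HasAntidiagonal.mem_antidiagonal] at hp
  rw [← hp, pow_add]; ring

lemma Smb.sub {F G : ℂ⟦X⟧} (hF : Smb F) (hG : Smb G) : Smb (F - G) := by
  refine Summable.of_nonneg_of_le (fun _ => norm_nonneg _) (fun n => ?_) (Summable.add hF hG)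
  rw [map_sub]
  exact norm_sub_le _ _

lemma ev_sub {F G : ℂ⟦X⟧} (hF : Smb F) (hG : Smb G) (t : ℝ) : ev (F - G) t = ev F t - ev G t := by
  rw [ev, ev, ev, ← (hF.summable_norm t).of_norm.tsum_sub (hG.summable_norm t).of_norm]
  refine tsum_congr fun n => ?_
  rw [map_sub, sub_mul]

lemma Smb_geo {c : ℂ} (hc : ‖c‖ < 1) : Smb (geo c) := by
  have : Summable fun n : ℕ => ‖c‖ ^ n := summable_geometric_of_lt_one (norm_nonneg _) hc
  refine this.congr fun n => ?_
  rw [coeff_geo, norm_pow]

lemma ev_geo {c : ℂ} (hc : ‖c‖ < 1) (t : ℝ) : ev (geo c) t = (1 - c * cz t)⁻¹ := by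
  rw [ev]
  have h1 : ‖c * cz t‖ < 1 := by rw [norm_mul, norm_cz, mul_one]; exact hc
  rw [← tsum_geometric_of_norm_lt_one h1]
  refine tsum_congr fun n => ?_
  rw [coeff_geo, mul_pow]

lemma Smb_of_finite {F : ℂ⟦X⟧} (N : ℕ) (h : ∀ n, N ≤ n → coeff n F = 0) : Smb F := by
  refine summable_of_ne_finset_zero (s := range N) fun n hn => ?_
  rw [mem_range, not_lt] at hn
  rw [h n hn, norm_zero]

lemma ev_of_finite {F : ℂ⟦X⟧} (N : ℕ) (h : ∀ n, N ≤ n → coeff n F = 0) (t : ℝ) :
    ev F t = ∑ n ∈ range N, coeff n F * cz t ^ n := by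
  rw [ev, tsum_eq_sum (s := range N)]
  intro n hn
  rw [mem_range, not_lt] at hn
  rw [h n hn, zero_mul]

lemma coeff_lin (a : ℂ) (n : ℕ) : coeff n (1 - C a * X : ℂ⟦X⟧) =
    if n = 0 then 1 else if n = 1 then -a else 0 := by
  match n with
  | 0 => simp
  | 1 => simp [coeff_one]
  | n + 2 => simp [coeff_one, coeff_C_mul, coeff_X]

lemma Smb_lin (a : ℂ) : Smb (1 - C a * X : ℂ⟦X⟧) := by
  apply Smb_of_finite 2
  intro n hn
  rw [coeff_lin, if_neg (by omega), if_neg (by omega)]

lemma ev_lin (a : ℂ) (t : ℝ) : ev (1 - C a * X : ℂ⟦X⟧) t = 1 - a * cz t := by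
  rw [ev_of_finite 2]
  · rw [sum_range_succ, sum_range_succ, range_zero, sum_empty, coeff_lin, coeff_lin]
    simp; ring
  · intro n hn
    rw [coeff_lin, if_neg (by omega), if_neg (by omega)]

lemma continuous_ev {F : ℂ⟦X⟧} (hF : Smb F) : Continuous (ev F) := by
  unfold ev
  refine continuous_tsum (fun n => ?_) hF (fun n t => ?_)
  · exact continuous_const.mul (continuous_cz.pow n)
  · rw [norm_mul, norm_pow, norm_cz, one_pow, mul_one]

lemma integral_cz (n j : ℕ) : ∫ t in (0 : ℝ)..2 * Real.pi, cz t ^ n * starRingEnd ℂ (cz t ^ j) =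
    if n = j then ((2 * Real.pi : ℝ) : ℂ) else 0 := by
  have h1 : ∀ t : ℝ, cz t ^ n * starRingEnd ℂ (cz t ^ j) =
      Complex.exp (((n : ℂ) - j) * Complex.I * t) := by
    intro t
    rw [cz, map_pow, ← Complex.exp_conj, ← Complex.exp_nat_mul, ← Complex.exp_nat_mul,
      ← Complex.exp_add]
    congr 1
    rw [map_mul, Complex.conj_ofReal, Complex.conj_I]
    ring
  simp_rw [h1]
  split_ifs with h
  · subst h
    simp
  · have hc : ((n : ℂ) - j) * Complex.I ≠ 0 := by
      apply mul_ne_zero _ Complex.I_ne_zero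
      rw [sub_ne_zero]
      exact_mod_cast h
    rw [integral_exp_mul_complex hc]
    have h2 : Complex.exp (((n : ℂ) - j) * Complex.I * ((2 * Real.pi : ℝ) : ℂ)) = 1 := by
      rw [Complex.exp_eq_one_iff]
      refine ⟨(n : ℤ) - j, ?_⟩
      push_cast; ring
    rw [h2]
    simp

lemma integral_ev {F : ℂ⟦X⟧} (hF : Smb F) (j : ℕ) :
    ∫ t in (0 : ℝ)..2 * Real.pi, ev F t * starRingEnd ℂ (cz t ^ j) =
      ((2 * Real.pi : ℝ) : ℂ) * coeff j F := by
  let f : ℕ → C(ℝ, ℂ) := fun n =>
    ⟨fun t => coeff n F * (cz t ^ n * starRingEnd ℂ (cz t ^ j)), by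
      have := continuous_cz
      fun_prop⟩
  have hf : Summable fun n => ‖(f n).restrict (⟨Set.uIcc 0 (2 * Real.pi), isCompact_uIcc⟩ :
      TopologicalSpace.Compacts ℝ)‖ := by
    refine Summable.of_nonneg_of_le (fun _ => norm_nonneg _) (fun n => ?_) hF
    rw [ContinuousMap.norm_le _ (norm_nonneg _)]
    intro x
    simp only [ContinuousMap.restrict_apply, f, ContinuousMap.coe_mk]
    rw [norm_mul, norm_mul, RCLike.norm_conj, norm_pow, norm_pow, norm_cz, one_pow, one_pow,
      mul_one, mul_one]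
  have h1 := intervalIntegral.hasSum_intervalIntegral_of_summable_norm hf
  have h2 : ∀ t, ∑' n, f n t = ev F t * starRingEnd ℂ (cz t ^ j) := by
    intro t
    rw [ev, ← tsum_mul_right]
    refine tsum_congr fun n => ?_
    simp only [f, ContinuousMap.coe_mk]
    ring
  simp_rw [h2] at h1
  have h3 : ∀ n, ∫ t in (0 : ℝ)..2 * Real.pi, f n t = coeff n F *
      if n = j then ((2 * Real.pi : ℝ) : ℂ) else 0 := by
    intro n
    rw [← integral_cz n j, ← intervalIntegral.integral_const_mul]
    rfl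
  simp_rw [h3] at h1
  have h4 := h1.tsum_eq
  rw [tsum_eq_single j (fun n hn => by rw [if_neg hn, mul_zero]), if_pos rfl] at h4
  rw [← h4, mul_comm]

/-- A Parseval inequality. -/
theorem parseval {F : ℂ⟦X⟧} (hF : Smb F) (k : ℕ) :
    2 * Real.pi * NN k F ≤ ∫ t in (0 : ℝ)..2 * Real.pi, ‖ev F t‖ ^ 2 := by
  set P : ℂ⟦X⟧ := ((PowerSeries.trunc (k + 1) F : Polynomial ℂ) : ℂ⟦X⟧) with hP
  have hPc : ∀ n, coeff n P = if n < k + 1 then coeff n F else 0 := by
    intro n
    rw [hP, Polynomial.coeff_coe, coeff_trunc]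
  have hP0 : ∀ n, k + 1 ≤ n → coeff n P = 0 := by
    intro n hn
    rw [hPc, if_neg (by omega)]
  have hPs : Smb P := Smb_of_finite (k + 1) hP0
  have hcF := continuous_ev hF
  have hcP := continuous_ev hPs
  have key : ∀ G : ℂ⟦X⟧, Smb G → ∫ t in (0 : ℝ)..2 * Real.pi, (ev G t * starRingEnd ℂ (ev P t)) =
      ∑ j ∈ range (k + 1), starRingEnd ℂ (coeff j P) * (((2 * Real.pi : ℝ) : ℂ) * coeff j G) := by
    intro G hG
    have hcG := continuous_ev hG
    have e1 : ∀ t, ev G t * starRingEnd ℂ (ev P t) = ∑ j ∈ range (k + 1),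
        starRingEnd ℂ (coeff j P) * (ev G t * starRingEnd ℂ (cz t ^ j)) := by
      intro t
      rw [ev_of_finite (k + 1) hP0 t, map_sum, mul_sum]
      refine sum_congr rfl fun j _ => ?_
      rw [map_mul]; ring
    simp_rw [e1]
    rw [intervalIntegral.integral_finset_sum]
    · refine sum_congr rfl fun j _ => ?_
      rw [intervalIntegral.integral_const_mul, integral_ev hG]
    · intro j _
      apply Continuous.intervalIntegrable
      have := continuous_cz
      fun_prop
  have k1 := key F hF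
  have k2 := key P hPs
  have e2 : ∀ j ∈ range (k + 1), coeff j F = coeff j P := by
    intro j hj
    rw [mem_range] at hj
    rw [hPc, if_pos hj]
  have e3 : ∑ j ∈ range (k + 1), starRingEnd ℂ (coeff j P) * (((2 * Real.pi : ℝ) : ℂ) * coeff j F)
      = ((2 * Real.pi * NN k F : ℝ) : ℂ) := by
    rw [NN]
    push_cast
    rw [mul_sum]
    refine sum_congr rfl fun j hj => ?_
    rw [← e2 j hj, ← Complex.conj_mul' (coeff j F)]
    push_cast
    ring
  rw [e3] at k1
  have e4 : ∑ j ∈ range (k + 1), starRingEnd ℂ (coeff j P) * (((2 * Real.pi : ℝ) : ℂ) * coeff j P)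
      = ((2 * Real.pi * NN k F : ℝ) : ℂ) := by
    rw [← e3]
    refine sum_congr rfl fun j hj => ?_
    rw [e2 j hj]
  rw [e4] at k2
  have i1 : IntervalIntegrable (fun t => (ev F t * starRingEnd ℂ (ev P t))) volume 0
      (2 * Real.pi) := by
    apply Continuous.intervalIntegrable
    fun_prop
  have i2 : IntervalIntegrable (fun t => (ev P t * starRingEnd ℂ (ev P t))) volume 0
      (2 * Real.pi) := by
    apply Continuous.intervalIntegrable
    fun_prop
  have r1 : ∫ t in (0 : ℝ)..2 * Real.pi, (ev F t * starRingEnd ℂ (ev P t)).re =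
      2 * Real.pi * NN k F := by
    have := congrArg Complex.re k1
    rw [Complex.ofReal_re] at this
    rw [← this]
    exact intervalIntegral_re i1
  have r2 : ∫ t in (0 : ℝ)..2 * Real.pi, (ev P t * starRingEnd ℂ (ev P t)).re =
      2 * Real.pi * NN k F := by
    have := congrArg Complex.re k2
    rw [Complex.ofReal_re] at this
    rw [← this]
    exact intervalIntegral_re i2
  have r3 : ∫ t in (0 : ℝ)..2 * Real.pi, (2 * (ev F t * starRingEnd ℂ (ev P t)).re -
      (ev P t * starRingEnd ℂ (ev P t)).re) = 2 * Real.pi * NN k F := by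
    rw [intervalIntegral.integral_sub, intervalIntegral.integral_const_mul, r1, r2]
    · ring
    · apply Continuous.intervalIntegrable
      fun_prop
    · apply Continuous.intervalIntegrable
      fun_prop
  rw [← r3]
  apply intervalIntegral.integral_mono_on (by positivity)
  · apply Continuous.intervalIntegrable
    fun_prop
  · apply Continuous.intervalIntegrable
    fun_prop
  · intro t _
    have h1 : 0 ≤ ‖ev F t - ev P t‖ ^ 2 := by positivity
    rw [Complex.sq_norm, Complex.normSq_sub] at h1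
    rw [Complex.sq_norm]
    have h2 : (ev P t * starRingEnd ℂ (ev P t)).re = Complex.normSq (ev P t) := by
      rw [Complex.mul_conj, Complex.ofReal_re]
    rw [h2]
    linarith

end Pool.Agent.Helper79.LC
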