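import Pool.Agent.Helper79.LC.Branch

/-!
The branching inequality inside a class of polynomials with nearly equal outer parts.
-/

open Finset PowerSeries

namespace Pool.Agent.Helper79.LC

lemma conv_le (k : ℕ) (F G : ℂ⟦X⟧) :
    ∑ p ∈ antidiagonal k, ‖coeff p.1 F‖ * ‖coeff p.2 G‖ ≤ √(NN k F) * √(NN k G) := by
  rw [Finset.Nat.sum_antidiagonal_eq_sum_range_succ (f := fun a b => ‖coeff a F‖ * ‖coeff b G‖)]
  refine (Real.sum_mul_le_sqrt_mul_sqrt _ _ _).trans ?_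
  rw [NN, NN]
  have : ∑ i ∈ range (k + 1), ‖coeff (k - i) G‖ ^ 2 = ∑ i ∈ range (k + 1), ‖coeff i G‖ ^ 2 := by
    have := sum_range_reflect (fun i => ‖coeff i G‖ ^ 2) (k + 1)
    simpa using this
  rw [this]

lemma coeff_mul_le (k : ℕ) (F G : ℂ⟦X⟧) :
    ‖coeff k (F * G)‖ ≤ √(NN k F) * √(NN k G) := by
  rw [coeff_mul]
  refine (norm_sum_le _ _).trans ?_
  simp_rw [norm_mul]
  exact conv_le k F G

lemma NN_sub_le (k : ℕ) (F G : ℂ⟦X⟧) : NN k (F - G) ≤ 2 * NN k F + 2 * NN k G := by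
  rw [NN, NN, NN, mul_sum, mul_sum, ← sum_add_distrib]
  refine sum_le_sum fun i _ => ?_
  rw [map_sub]
  have h1 := norm_sub_le (coeff i F) (coeff i G)
  have h2 := norm_nonneg (coeff i F - coeff i G)
  nlinarith [sq_nonneg (‖coeff i F‖ - ‖coeff i G‖)]

lemma antisymm (k : ℕ) (F : ℂ⟦X⟧) :
    ∑ p ∈ antidiagonal k, ((p.1 : ℂ) - p.2) * (coeff p.1 F * coeff p.2 F) = 0 := by
  have h := Finset.Nat.sum_antidiagonal_swap
    (f := fun p : ℕ × ℕ => ((p.1 : ℂ) - p.2) * (coeff p.1 F * coeff p.2 F)) (n := k)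
  have h2 : ∑ p ∈ antidiagonal k, (((Prod.swap p).1 : ℂ) - (Prod.swap p).2) *
      (coeff (Prod.swap p).1 F * coeff (Prod.swap p).2 F) =
      - ∑ p ∈ antidiagonal k, ((p.1 : ℂ) - p.2) * (coeff p.1 F * coeff p.2 F) := by
    rw [← sum_neg_distrib]
    refine sum_congr rfl fun p _ => ?_
    simp only [Prod.fst_swap, Prod.snd_swap]
    ring
  rw [h2] at h
  have h3 := neg_eq_self.mp h
  exact h3

/-- The size of the reference prediction. -/
noncomputable def Vq (q : ℂ⟦X⟧) (m : Multiset ℂ) (k : ℕ) : ℝ :=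
  ‖coeff k (q * (q * PW (m.map refl)))‖

theorem branchC {m m' m₀ : Multiset ℂ} {T τ Y : ℝ} (hT : 0 ≤ T) (hm : mm (out m) ≤ T)
    (hm' : mm (out m') ≤ T) (hm₀ : mm (out m₀) ≤ T) {k : ℕ} (hτ0 : 0 ≤ τ) (hY0 : 0 ≤ Y)
    (hτ : NN k (BQ (out m) - BQ (out m₀)) ≤ τ ^ 2) (hτ' : NN k (BQ (out m') - BQ (out m₀)) ≤ τ ^ 2)
    (hY : NN k (PW (m.map refl)) ≤ Y ^ 2) (hY' : NN k (PW (m'.map refl)) ≤ Y ^ 2)
    (h : ∀ j < k, coeff j (HH m) = coeff j (HH m')) :
    (k : ℝ) * ‖coeff k (HH m) - coeff k (HH m')‖ ≤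
      2 * k * T * τ + 4 * T * τ * Y + Vq (BQ (out m₀)) m k + Vq (BQ (out m₀)) m' k := by
  have hgt : ∀ l : Multiset ℂ, ∀ a ∈ out l, 1 < ‖a‖ := fun l a ha => (Multiset.mem_filter.mp ha).2
  set q := BQ (out m) with hq
  set q' := BQ (out m') with hq'
  set q₀ := BQ (out m₀) with hq₀
  set W := PW (m.map refl) with hW
  set W' := PW (m'.map refl) with hW'
  have hmm0 : ∀ l : Multiset ℂ, 0 ≤ mm (out l) := fun l => zero_le_one.trans (mm_pos _ (hgt l))
  -- norms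
  have n1 : ∀ l : Multiset ℂ, mm (out l) ≤ T → ∀ G : ℂ⟦X⟧, √(NN k (BQ (out l) * G)) ≤ T * √(NN k G) := by
    intro l hl G
    rw [Real.sqrt_le_iff]
    refine ⟨by positivity, ?_⟩
    rw [mul_pow, Real.sq_sqrt (NN_nonneg _ _)]
    refine (NN_BQ k (out l) (hgt l) G).trans ?_
    have := hmm0 l
    have := NN_nonneg k G
    gcongr
  have n2 : √(NN k q) ≤ T := by
    have := n1 m hm 1
    rwa [mul_one, NN_one, Real.sqrt_one, mul_one] at this
  have n3 : ∀ F : ℂ⟦X⟧, NN k F ≤ τ ^ 2 → √(NN k F) ≤ τ := by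
    intro F hF
    rw [Real.sqrt_le_iff]; exact ⟨hτ0, hF⟩
  have n4 : ∀ F : ℂ⟦X⟧, NN k F ≤ Y ^ 2 → √(NN k F) ≤ Y := by
    intro F hF
    rw [Real.sqrt_le_iff]; exact ⟨hY0, hF⟩
  have n5 : √(NN k (q' - q)) ≤ 2 * τ := by
    rw [Real.sqrt_le_iff]
    refine ⟨by positivity, ?_⟩
    have e : q' - q = (q' - q₀) - (q - q₀) := by ring
    rw [e]
    refine (NN_sub_le _ _ _).trans ?_
    nlinarith
  -- the identity
  have h1 := branch m m' k h
  have h2 : (k : ℝ) * ‖coeff k (HH m) - coeff k (HH m')‖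
      = ‖(k : ℂ) * (coeff k (HH m) - coeff k (HH m'))‖ := by
    rw [norm_mul, Complex.norm_natCast]
  rw [h2, h1, ← hq, ← hq', ← hW, ← hW']
  -- first sum
  have s1 : ∑ p ∈ antidiagonal k, ((p.1 : ℂ) - p.2) * (coeff p.1 q * coeff p.2 q') =
      ∑ p ∈ antidiagonal k, ((p.1 : ℂ) - p.2) * (coeff p.1 q * coeff p.2 (q' - q)) := by
    have := antisymm k q
    rw [← sub_eq_zero, ← sum_sub_distrib, ← this]
    refine sum_congr rfl fun p _ => ?_
    rw [map_sub]; ring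
  have s2 : ‖∑ p ∈ antidiagonal k, ((p.1 : ℂ) - p.2) * (coeff p.1 q * coeff p.2 q')‖ ≤
      2 * k * T * τ := by
    rw [s1]
    refine (norm_sum_le _ _).trans ?_
    have s3 : ∀ p ∈ antidiagonal k, ‖((p.1 : ℂ) - p.2) * (coeff p.1 q * coeff p.2 (q' - q))‖ ≤
        k * (‖coeff p.1 q‖ * ‖coeff p.2 (q' - q)‖) := by
      intro p hp
      rw [HasAntidiagonal.mem_antidiagonal] at hp
      rw [norm_mul, norm_mul]
      have s4 : ‖(p.1 : ℂ) - p.2‖ ≤ k := by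
        have : ((p.1 : ℂ) - p.2) = (((p.1 : ℝ) - p.2 : ℝ) : ℂ) := by push_cast; ring
        rw [this, Complex.norm_real, Real.norm_eq_abs, abs_le]
        have e1 : (p.1 : ℝ) + p.2 = k := by exact_mod_cast hp
        have e2 : (0 : ℝ) ≤ p.1 := by positivity
        have e3 : (0 : ℝ) ≤ p.2 := by positivity
        constructor <;> linarith
      gcongr
    refine (sum_le_sum s3).trans ?_
    rw [← mul_sum]
    have s5 := conv_le k q (q' - q)
    have s6 : √(NN k q) * √(NN k (q' - q)) ≤ T * (2 * τ) := by gcongr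
    calc (k : ℝ) * ∑ p ∈ antidiagonal k, ‖coeff p.1 q‖ * ‖coeff p.2 (q' - q)‖
        ≤ k * (T * (2 * τ)) := by gcongr; exact s5.trans s6
      _ = _ := by ring
  -- second sum
  have t1 : ∑ p ∈ antidiagonal k, coeff p.1 (BQ (out m + out m')) * coeff p.2 (W - W') =
      coeff k (q * q' * W) - coeff k (q * q' * W') := by
    rw [← coeff_mul, BQ_add, ← hq, ← hq', mul_sub, map_sub]
  have t2 : ∀ V : ℂ⟦X⟧, NN k V ≤ Y ^ 2 →
      ‖coeff k (q * q' * V)‖ ≤ ‖coeff k (q₀ * (q₀ * V))‖ + 2 * T * τ * Y := by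
    intro V hV
    have e : q * q' * V = q₀ * (q₀ * V) + (q - q₀) * (q' * V) + (q' - q₀) * (q₀ * V) := by ring
    rw [e, map_add, map_add]
    have e1 := coeff_mul_le k (q - q₀) (q' * V)
    have e2 := coeff_mul_le k (q' - q₀) (q₀ * V)
    have e3 : √(NN k (q - q₀)) * √(NN k (q' * V)) ≤ τ * (T * Y) := by
      have := n1 m' hm' V
      have h4 := n4 V hV
      have h5 := n3 _ hτ
      gcongr
      exact this.trans (by gcongr)
    have e4 : √(NN k (q' - q₀)) * √(NN k (q₀ * V)) ≤ τ * (T * Y) := by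
      have := n1 m₀ hm₀ V
      have h4 := n4 V hV
      have h5 := n3 _ hτ'
      gcongr
      exact this.trans (by gcongr)
    have e5 := norm_add₃_le (a := coeff k (q₀ * (q₀ * V))) (b := coeff k ((q - q₀) * (q' * V)))
      (c := coeff k ((q' - q₀) * (q₀ * V)))
    linarith
  rw [t1]
  have t3 := t2 W hY
  have t4 := t2 W' hY'
  have t5 := norm_sub_le (∑ p ∈ antidiagonal k, ((p.1 : ℂ) - p.2) * (coeff p.1 q * coeff p.2 q'))
    (coeff k (q * q' * W) - coeff k (q * q' * W'))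
  have t6 := norm_sub_le (coeff k (q * q' * W)) (coeff k (q * q' * W'))
  simp only [Vq]
  linarith

/-- Parseval for the predictions. -/
lemma sum_Vq_le {m m₀ : Multiset ℂ} {T : ℝ} (hm₀ : mm (out m₀) ≤ T) (k : ℕ) :
    ∑ j ∈ range (k + 1), Vq (BQ (out m₀)) m j ^ 2 ≤ T ^ 4 * NN k (PW (m.map refl)) := by
  have hgt : ∀ a ∈ out m₀, 1 < ‖a‖ := fun a ha => (Multiset.mem_filter.mp ha).2
  have h0 : 0 ≤ mm (out m₀) := zero_le_one.trans (mm_pos _ hgt)
  have h1 := NN_BQ k (out m₀) hgt (BQ (out m₀) * PW (m.map refl))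
  have h2 := NN_BQ k (out m₀) hgt (PW (m.map refl))
  have h3 := NN_nonneg k (PW (m.map refl))
  have h4 := NN_nonneg k (BQ (out m₀) * PW (m.map refl))
  calc ∑ j ∈ range (k + 1), Vq (BQ (out m₀)) m j ^ 2
      = NN k (BQ (out m₀) * (BQ (out m₀) * PW (m.map refl))) := rfl
    _ ≤ mm (out m₀) ^ 2 * NN k (BQ (out m₀) * PW (m.map refl)) := h1
    _ ≤ T ^ 2 * (T ^ 2 * NN k (PW (m.map refl))) := by
        gcongr
        refine h2.trans ?_
        gcongr
    _ = _ := by ring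

end Pool.Agent.Helper79.LC
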