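import Pool.Agent.Helper79.LC.Bounds

/-!
Separable monic integer polynomials and their rescaled root sets.
-/

open Finset

namespace Pool.Agent.Helper79.LC

variable {f g : Polynomial ℤ}

/-- Monic integer polynomials without multiple roots. -/
def Sp (f : Polynomial ℤ) : Prop := f.Monic ∧ (f.map (Int.castRingHom ℚ)).Separable

lemma Sp.rt_val (h : Sp f) : (rt f).val = (f.map (Int.castRingHom ℂ)).roots := by
  have : (f.map (Int.castRingHom ℂ)).Separable := by
    rw [← map_map_C]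
    exact h.2.map
  rw [rt, Multiset.toFinset_val, (Polynomial.nodup_roots this).dedup]

lemma Sp.card_rt (h : Sp f) : #(rt f) = f.natDegree := by
  have h1 : #(rt f) = Multiset.card (rt f).val := rfl
  rw [h1, h.rt_val, ← (IsAlgClosed.splits _).natDegree_eq_card_roots, h.1.natDegree_map]

lemma Sp.coeff_HH (h : Sp f) {k : ℕ} (hk : k ≤ f.natDegree) :
    PowerSeries.coeff k (HH (rt f).val) = ((f.coeff (f.natDegree - k) : ℤ) : ℂ) := by
  rw [h.rt_val, HH_eq_reverse,
    ← (IsAlgClosed.splits _).eq_prod_roots_of_monic (h.1.map _), Polynomial.coeff_coe,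
    Polynomial.coeff_reverse, h.1.natDegree_map, Polynomial.revAt_le hk, Polynomial.coeff_map]
  simp

lemma Sp.disc_ge (h : Sp f) : 1 ≤ ∏ a ∈ rt f, ∏ b ∈ (rt f).erase a, ‖a - b‖ := by
  have hco : IsCoprime (f.map (Int.castRingHom ℚ))
      ((Polynomial.derivative f).map (Int.castRingHom ℚ)) := by
    rw [← Polynomial.derivative_map]
    exact h.2
  have h1 := Polynomial.resultant_eq_prod_eval (f.map (Int.castRingHom ℂ))
    ((Polynomial.derivative f).map (Int.castRingHom ℂ)) (Polynomial.derivative f).natDegree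
    (Polynomial.natDegree_map_le) (IsAlgClosed.splits _)
  rw [(h.1.map _).leadingCoeff, one_pow, one_mul, h.1.natDegree_map,
    Polynomial.resultant_map_map] at h1
  have h2 : f.resultant (Polynomial.derivative f) f.natDegree (Polynomial.derivative f).natDegree
      ≠ 0 := by
    have h3 := Polynomial.resultant_ne_zero _ _ hco
    have h4 : (f.map (Int.castRingHom ℚ)).natDegree = f.natDegree := h.1.natDegree_map _
    have h5 : ((Polynomial.derivative f).map (Int.castRingHom ℚ)).natDegree =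
        (Polynomial.derivative f).natDegree :=
      Polynomial.natDegree_map_eq_of_injective (RingHom.injective_int _) _
    rw [h4, h5, Polynomial.resultant_map_map] at h3
    intro h; apply h3; rw [h]; simp
  have h6 : ∏ a ∈ rt f, ∏ b ∈ (rt f).erase a, ‖a - b‖ =
      ‖(Multiset.map (fun x => Polynomial.eval x ((Polynomial.derivative f).map
        (Int.castRingHom ℂ))) (f.map (Int.castRingHom ℂ)).roots).prod‖ := by
    rw [← h.rt_val]
    have : (Multiset.map (fun x => Polynomial.eval x ((Polynomial.derivative f).map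
        (Int.castRingHom ℂ))) (rt f).val).prod = ∏ a ∈ rt f,
        Polynomial.eval a ((Polynomial.derivative f).map (Int.castRingHom ℂ)) := rfl
    rw [this, norm_prod]
    refine prod_congr rfl fun a ha => ?_
    have ha' : a ∈ (f.map (Int.castRingHom ℂ)).roots := Multiset.mem_toFinset.mp ha
    rw [← Polynomial.derivative_map, (IsAlgClosed.splits _).eval_root_derivative (h.1.map _) ha',
      ← norm_prod, Finset.prod, Finset.erase_val, h.rt_val]
  rw [h6]
  apply one_le_of_int h1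
  rw [← h1]
  simpa using h2

lemma Sp.MM_eq (h : Sp f) : MM f = ∏ a ∈ rt f, max 1 ‖a‖ := by
  rw [MM, Polynomial.mahlerMeasure_eq_leadingCoeff_mul_prod_roots, (h.1.map _).leadingCoeff,
    norm_one, one_mul, Finset.prod, h.rt_val]

lemma Sp.LM_eq (h : Sp f) : LM (rt f) = Real.log (MM f) := by
  rw [h.MM_eq, Real.log_prod, LM]
  intro a _
  positivity

lemma Sp.one_le_MM (h : Sp f) : 1 ≤ MM f := by
  have h1 : MM f = mm (out (rt f).val) := by rw [h.MM_eq, mm_out]; rfl
  rw [h1]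
  exact mm_pos _ (fun a ha => (Multiset.mem_filter.mp ha).2)

lemma sp_of_irr (hm : f.Monic) (hf : Irreducible f) : Sp f := ⟨hm, (map_irr hm hf).separable⟩

/-- rescaling -/
noncomputable def sc (r : ℝ) (m : Multiset ℂ) : Multiset ℂ := m.map fun a => (r : ℂ) * a

lemma HH_sc (r : ℝ) (m : Multiset ℂ) : HH (sc r m) = PowerSeries.rescale (r : ℂ) (HH m) := by
  induction m using Multiset.induction_on with
  | empty => simp [HH, sc]
  | cons a m ih =>
    have h1 : sc r (a ::ₘ m) = ((r : ℂ) * a) ::ₘ sc r m := by simp [sc]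
    rw [h1, HH_cons, HH_cons, map_mul (PowerSeries.rescale (r : ℂ)), ih]
    congr 1
    ext k
    rw [PowerSeries.coeff_rescale]
    match k with
    | 0 => simp
    | 1 => simp [PowerSeries.coeff_one]
    | k + 2 => simp [PowerSeries.coeff_one, PowerSeries.coeff_C_mul, PowerSeries.coeff_X]

lemma coeff_HH_sc (r : ℝ) (m : Multiset ℂ) (k : ℕ) :
    PowerSeries.coeff k (HH (sc r m)) = (r : ℂ) ^ k * PowerSeries.coeff k (HH m) := by
  rw [HH_sc, PowerSeries.coeff_rescale]

lemma mm_out_sc {r : ℝ} (hr0 : 0 ≤ r) (hr1 : r ≤ 1) (m : Multiset ℂ) :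
    mm (out (sc r m)) ≤ mm (out m) := by
  rw [mm_out, mm_out]
  induction m using Multiset.induction_on with
  | empty => simp [sc]
  | cons a m ih =>
    have h1 : sc r (a ::ₘ m) = ((r : ℂ) * a) ::ₘ sc r m := by simp [sc]
    rw [h1, Multiset.map_cons, Multiset.prod_cons, Multiset.map_cons, Multiset.prod_cons]
    have h2 : 0 ≤ (Multiset.map (fun a => max 1 ‖a‖) (sc r m)).prod := by
      apply Multiset.prod_nonneg
      intro x hx
      obtain ⟨y, _, rfl⟩ := Multiset.mem_map.mp hx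
      positivity
    have h3 : max 1 ‖(r : ℂ) * a‖ ≤ max 1 ‖a‖ := by
      apply max_le_max le_rfl
      rw [norm_mul, Complex.norm_real, Real.norm_of_nonneg hr0]
      exact mul_le_of_le_one_left (norm_nonneg _) hr1
    gcongr

lemma LM_le_log {S : Finset ℂ} : LM S = Real.log (mm (out S.val)) := by
  rw [mm_out, LM]
  have : (Multiset.map (fun a => max 1 ‖a‖) S.val).prod = ∏ a ∈ S, max 1 ‖a‖ := rfl
  rw [this, Real.log_prod]
  intro a _
  positivity

/-- rescaled finite set -/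
noncomputable def scF (r : ℝ) (hr : r ≠ 0) (S : Finset ℂ) : Finset ℂ :=
  S.map ⟨fun a => (r : ℂ) * a, fun a b h => by
    have hr' : (r : ℂ) ≠ 0 := by exact_mod_cast hr
    exact mul_left_cancel₀ hr' h⟩

lemma scF_val (r : ℝ) (hr : r ≠ 0) (S : Finset ℂ) : (scF r hr S).val = sc r S.val := rfl

lemma disc_scF {r : ℝ} (hr : 0 < r) (S : Finset ℂ)
    (h : 1 ≤ ∏ a ∈ S, ∏ b ∈ S.erase a, ‖a - b‖) (hr1 : r ≤ 1) :
    r ^ (#S * #S) ≤ ∏ a ∈ scF r hr.ne' S, ∏ b ∈ (scF r hr.ne' S).erase a, ‖a - b‖ := by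
  classical
  have h1 : ∏ a ∈ scF r hr.ne' S, ∏ b ∈ (scF r hr.ne' S).erase a, ‖a - b‖ =
      ∏ a ∈ S, ∏ b ∈ S.erase a, (r * ‖a - b‖) := by
    rw [scF, prod_map]
    refine prod_congr rfl fun a _ => ?_
    rw [← map_erase, prod_map]
    refine prod_congr rfl fun b _ => ?_
    change ‖(r : ℂ) * a - (r : ℂ) * b‖ = r * ‖a - b‖
    rw [← mul_sub, norm_mul, Complex.norm_real, Real.norm_of_nonneg hr.le]
  rw [h1]
  have h2 : ∀ a ∈ S, ∏ b ∈ S.erase a, (r * ‖a - b‖) = r ^ (#S - 1) * ∏ b ∈ S.erase a, ‖a - b‖ := by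
    intro a ha
    rw [prod_mul_distrib, prod_const, card_erase_of_mem ha]
  rw [prod_congr rfl h2, prod_mul_distrib, prod_const, ← pow_mul]
  have h3 : r ^ (#S * #S) ≤ r ^ ((#S - 1) * #S) :=
    pow_le_pow_of_le_one hr.le hr1 (by gcongr; omega)
  calc r ^ (#S * #S) ≤ r ^ ((#S - 1) * #S) * 1 := by rw [mul_one]; exact h3
    _ ≤ _ := by gcongr

/-- Self-energy of a root set with a lower bound for the discriminant. -/
lemma EE_self' {r : ℝ} (hr0 : 0 < r) (hr1 : r < 1) {S : Finset ℂ} {R : ℝ} (hR : 0 < R)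
    (hres : R ≤ ∏ a ∈ S, ∏ b ∈ S.erase a, ‖a - b‖) :
    EE r S S ≤ - #S * Real.log (1 - r) + #S * #S * Real.log (2 / (1 + r)) + 2 * #S * LM S
      - Real.log R := by
  classical
  have hlog : 0 ≤ Real.log (2 / (1 + r)) := by
    apply Real.log_nonneg
    rw [le_div_iff₀ (by linarith)]; linarith
  have h1 : EE r S S ≤ ∑ a ∈ S, (- Real.log (1 - r) + ∑ b ∈ S.erase a, (Real.log (2 / (1 + r))
      - Real.log ‖a - b‖ + Real.log (max 1 ‖a‖) + Real.log (max 1 ‖b‖))) := by
    refine sum_le_sum fun a ha => ?_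
    rw [← add_sum_erase S _ ha]
    refine add_le_add (diag_kernel hr0 hr1 a) (sum_le_sum fun b hb => ?_)
    exact kernel hr0 hr1 (ne_of_mem_erase hb).symm
  have h2 : ∑ a ∈ S, ∑ b ∈ S.erase a, Real.log ‖a - b‖
      = Real.log (∏ a ∈ S, ∏ b ∈ S.erase a, ‖a - b‖) := by
    have hne : ∀ a ∈ S, ∀ b ∈ S.erase a, ‖a - b‖ ≠ 0 := fun a _ b hb =>
      (norm_pos_iff.mpr (sub_ne_zero.mpr (ne_of_mem_erase hb).symm)).ne'
    rw [Real.log_prod]
    · refine sum_congr rfl fun a ha => ?_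
      rw [Real.log_prod]
      exact hne a ha
    · intro a ha
      exact prod_ne_zero_iff.mpr (hne a ha)
  have h3 : Real.log R ≤ Real.log (∏ a ∈ S, ∏ b ∈ S.erase a, ‖a - b‖) := Real.log_le_log hR hres
  have h4 : ∀ a ∈ S, ∑ b ∈ S.erase a, (Real.log (2 / (1 + r))
      - Real.log ‖a - b‖ + Real.log (max 1 ‖a‖) + Real.log (max 1 ‖b‖)) ≤
      #S * Real.log (2 / (1 + r)) - ∑ b ∈ S.erase a, Real.log ‖a - b‖ + #S * Real.log (max 1 ‖a‖)
        + LM S := by
    intro a ha
    simp only [sum_add_distrib, sum_sub_distrib, sum_const, nsmul_eq_mul]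
    have hc : (#(S.erase a) : ℝ) ≤ #S := by exact_mod_cast card_le_card (erase_subset a S)
    have hl : 0 ≤ Real.log (max 1 ‖a‖) := Real.log_nonneg (le_max_left _ _)
    have h5 : ∑ b ∈ S.erase a, Real.log (max 1 ‖b‖) ≤ LM S :=
      sum_le_sum_of_subset_of_nonneg (erase_subset a S)
        (fun _ _ _ => Real.log_nonneg (le_max_left _ _))
    have h6 : (#(S.erase a) : ℝ) * Real.log (2 / (1 + r)) ≤ #S * Real.log (2 / (1 + r)) := by gcongr
    have h7 : (#(S.erase a) : ℝ) * Real.log (max 1 ‖a‖) ≤ #S * Real.log (max 1 ‖a‖) := by gcongr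
    linarith
  have h5 : ∑ a ∈ S, (- Real.log (1 - r) + ∑ b ∈ S.erase a, (Real.log (2 / (1 + r))
      - Real.log ‖a - b‖ + Real.log (max 1 ‖a‖) + Real.log (max 1 ‖b‖))) ≤
      ∑ a ∈ S, (- Real.log (1 - r) + (#S * Real.log (2 / (1 + r))
        - ∑ b ∈ S.erase a, Real.log ‖a - b‖ + #S * Real.log (max 1 ‖a‖) + LM S)) := by
    refine sum_le_sum fun a ha => ?_
    have := h4 a ha
    linarith
  have h6 : ∑ a ∈ S, (- Real.log (1 - r) + (#S * Real.log (2 / (1 + r))
        - ∑ b ∈ S.erase a, Real.log ‖a - b‖ + #S * Real.log (max 1 ‖a‖) + LM S)) =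
      - #S * Real.log (1 - r) + #S * #S * Real.log (2 / (1 + r))
        - ∑ a ∈ S, ∑ b ∈ S.erase a, Real.log ‖a - b‖ + 2 * #S * LM S := by
    simp only [sum_add_distrib, sum_sub_distrib, sum_const, nsmul_eq_mul, ← mul_sum]
    have : ∑ a ∈ S, Real.log (max 1 ‖a‖) = LM S := rfl
    rw [this]
    ring
  rw [h6, h2] at h5
  linarith

/-- Energy of the rescaled roots. -/
lemma AA_sc (h : Sp f) {n : ℕ} (hn : 2 ≤ n) (hfn : f.natDegree = n) {ρ : ℝ} (hρ : 0 ≤ ρ) :
    AA (sc (1 + ρ / n)⁻¹ (rt f).val) n ≤ 2 * n * (Real.log n + 2 * Real.log (MM f) + ρ + 2) := by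
  have hn0 : (0 : ℝ) < n := by positivity
  have hn2 : (2 : ℝ) ≤ n := by exact_mod_cast hn
  set s : ℝ := (1 + ρ / n)⁻¹ with hs
  have h1ρ : 1 ≤ 1 + ρ / n := by
    have : 0 ≤ ρ / n := by positivity
    linarith
  have hs0 : 0 < s := by positivity
  have hs1 : s ≤ 1 := inv_le_one_of_one_le₀ h1ρ
  set S := scF s hs0.ne' (rt f) with hS
  have hSc : #S = n := by rw [hS, scF, card_map, h.card_rt, hfn]
  have hx : (0 : ℝ) < 1 / (2 * n) := by positivity
  have hx1 : (1 : ℝ) / (2 * n) ≤ 1 / 4 := by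
    rw [div_le_div_iff₀ (by positivity) (by norm_num)]; linarith
  set r : ℝ := 1 - 1 / (2 * n) with hr
  have hr0 : 0 < r := by rw [hr]; linarith
  have hr1 : r < 1 := by rw [hr]; linarith
  have hrn : 1 / 2 ≤ r ^ n := by
    apply pow_ge n (by linarith)
    apply le_of_eq; field_simp
  rw [← scF_val s hs0.ne', ← hS]
  have h1 := AA_le_EE hr0 hr1 S n hrn le_rfl
  have h2 := sums_EE hr0 hr1 S n
  have h3 := EE_self' hr0 hr1 (S := S) (R := s ^ (#(rt f) * #(rt f))) (by positivity)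
    (disc_scF hs0 (rt f) h.disc_ge hs1)
  have hLM : LM S ≤ Real.log (MM f) := by
    rw [← h.LM_eq, LM_le_log, LM_le_log, hS, scF_val]
    have h4 : 0 < mm (out (sc s (rt f).val)) := by
      apply lt_of_lt_of_le one_pos
      exact mm_pos _ (fun a ha => (Multiset.mem_filter.mp ha).2)
    exact Real.log_le_log h4 (mm_out_sc hs0.le hs1 _)
  rw [hSc, h.card_rt, hfn] at h3
  have h4 : 1 - r = 1 / (2 * n) := by rw [hr]; ring
  have h5 : Real.log (1 / (2 * n)) = - (Real.log 2 + Real.log n) := by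
    rw [one_div, Real.log_inv, Real.log_mul (by norm_num) hn0.ne']
  have h6 : (n : ℝ) * n * Real.log (2 / (1 + r)) ≤ n / 2 := by
    have := log_r hr0 hr1
    rw [h4] at this
    calc (n : ℝ) * n * Real.log (2 / (1 + r)) ≤ n * n * (1 / (2 * n)) := by gcongr
      _ = n / 2 := by field_simp
  have h7 : Real.log 2 < 0.7 := lt_trans Real.log_two_lt_d9 (by norm_num)
  have h8 : - Real.log (s ^ (n * n)) ≤ n * ρ := by
    rw [Real.log_pow, hs, Real.log_inv]
    have h9 : Real.log (1 + ρ / n) ≤ ρ / n := by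
      have := Real.log_le_sub_one_of_pos (show 0 < 1 + ρ / n by linarith)
      linarith
    push_cast
    have h10 : (n : ℝ) * n * Real.log (1 + ρ / n) ≤ n * n * (ρ / n) := by gcongr
    have h11 : (n : ℝ) * n * (ρ / n) = n * ρ := by field_simp
    linarith
  have h9 : 2 * (n : ℝ) * LM S ≤ 2 * n * Real.log (MM f) := by gcongr
  rw [h4, h5] at h3
  nlinarith

end Pool.Agent.Helper79.LC
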