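import Pool.Agent.Helper79.LD.Cls
import Pool.Agent.Helper79.LD.Scl
import Pool.Agent.Helper79.LC.Prep
import Pool.Agent.Helper79.LC.Tree

/-!
Counting a class of separable polynomials with nearly equal far outer roots.
-/

open Finset

namespace Pool.Agent.Helper79.LC

lemma NN_mono {k l : ℕ} (h : k ≤ l) (F : PowerSeries ℂ) : NN k F ≤ NN l F := by
  rw [NN, NN]
  apply sum_le_sum_of_subset_of_nonneg
  · intro x; simp; omega
  · intros; positivity

lemma NN_PW_le (m : Multiset ℂ) (n : ℕ) : NN n (PW (m.map refl)) ≤ n * AA m n := by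
  have h1 : NN n (PW (m.map refl)) = ∑ i ∈ range (n + 1), wn m i ^ 2 := rfl
  rw [h1, AA, mul_sum]
  refine sum_le_sum fun i hi => ?_
  rcases Nat.eq_zero_or_pos i with h | h
  · rw [h, wn_zero]; simp
  · have h2 : (0 : ℝ) < i := by exact_mod_cast h
    rw [mem_range] at hi
    have h3 : (i : ℝ) ≤ n := by exact_mod_cast (by omega : i ≤ n)
    rw [← mul_div_assoc, le_div_iff₀ h2, mul_comm]
    gcongr

lemma top_sc {n : ℕ} {f g : Polynomial ℤ} (hf : Sp f) (hg : Sp g) (hfn : f.natDegree = n)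
    (hgn : g.natDegree = n) (r : ℝ) {k : ℕ} (hk : k ≤ n)
    (h : ∀ j, 1 ≤ j → j < k → ac n g j = ac n f j) :
    ∀ j < k, PowerSeries.coeff j (HH (sc r (rt f).val)) =
      PowerSeries.coeff j (HH (sc r (rt g).val)) := by
  intro j hj
  rw [coeff_HH_sc, coeff_HH_sc]
  congr 1
  rcases Nat.eq_zero_or_pos j with h0 | h0
  · subst h0; rw [constantCoeff_HH, constantCoeff_HH]
  · rw [hf.coeff_HH (by omega), hg.coeff_HH (by omega), hfn, hgn]
    have := h j h0 hj
    simp only [ac] at this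
    rw [this]

lemma norm_sc_sub {n : ℕ} {f g : Polynomial ℤ} (hf : Sp f) (hg : Sp g) (hfn : f.natDegree = n)
    (hgn : g.natDegree = n) {r : ℝ} (hr : 0 ≤ r) {k : ℕ} (hk : k ≤ n) :
    ‖PowerSeries.coeff k (HH (sc r (rt f).val)) - PowerSeries.coeff k (HH (sc r (rt g).val))‖ =
      r ^ k * ((|ac n f k - ac n g k| : ℤ) : ℝ) := by
  rw [coeff_HH_sc, coeff_HH_sc, ← mul_sub, norm_mul, norm_pow, Complex.norm_real,
    Real.norm_of_nonneg hr, hf.coeff_HH (by omega), hg.coeff_HH (by omega), hfn, hgn,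
    ← Int.cast_sub, Complex.norm_intCast]
  simp [ac]

theorem class_count {n K B β : ℕ} {T r R τ E : ℝ} (hT : 1 ≤ T) (hr0 : 0 < r)
    (hr1 : r ≤ 1) (hR : 1 ≤ r ^ n * R) (hτ0 : 0 ≤ τ) (hE : 0 ≤ E)
    (G : Finset (Polynomial ℤ)) (hG : ∀ f ∈ G, Sp f ∧ f.natDegree = n ∧ MM f ≤ T)
    (m₀ : Multiset ℂ) (hm₀ : mm (out m₀) ≤ T)
    (hcl : ∀ f ∈ G, NN n (BQ (out (sc r (rt f).val)) - BQ (out m₀)) ≤ τ ^ 2)
    (hAA : ∀ f ∈ G, AA (sc r (rt f).val) n ≤ E) (hK : 1 ≤ K)
    (hsmall : R * (2 * T * τ + 4 * T * τ * √(n * E) / K) ≤ 1 / 4)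
    (hB : R * (2 * n * T * τ + 4 * T * τ * √(n * E) + 2 * (T ^ 2 * √(n * E))) ≤ B)
    (hβ : 16 * R ^ 2 * T ^ 4 * (n * E) ≤ β * K ^ 2) :
    #G ≤ (2 * B + 1) ^ K * ((n + 1) * (2 * B + 1)) ^ β := by
  classical
  have hRpos : 0 < R := by
    by_contra h
    push Not at h
    have : r ^ n * R ≤ 0 := mul_nonpos_of_nonneg_of_nonpos (by positivity) h
    linarith
  set Y : ℝ := √(n * E) with hY
  have hY0 : 0 ≤ Y := Real.sqrt_nonneg _
  have hYsq : Y ^ 2 = n * E := Real.sq_sqrt (by positivity)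
  set V : Polynomial ℤ → ℕ → ℝ := fun f k => Vq (BQ (out m₀)) (sc r (rt f).val) k with hV
  have hVnn : ∀ f k, 0 ≤ V f k := fun f k => norm_nonneg _
  have hNN : ∀ f ∈ G, NN n (PW ((sc r (rt f).val).map refl)) ≤ Y ^ 2 := by
    intro f hf
    rw [hYsq]
    refine (NN_PW_le _ n).trans ?_
    have := hAA f hf
    gcongr
  have hVsum : ∀ f ∈ G, ∑ j ∈ range (n + 1), V f j ^ 2 ≤ T ^ 4 * Y ^ 2 := by
    intro f hf
    refine (sum_Vq_le hm₀ n).trans ?_
    have := hNN f hf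
    gcongr
  have hVle : ∀ f ∈ G, ∀ k ≤ n, V f k ≤ T ^ 2 * Y := by
    intro f hf k hk
    have h1 : V f k ^ 2 ≤ ∑ j ∈ range (n + 1), V f j ^ 2 :=
      single_le_sum (f := fun j => V f j ^ 2) (fun _ _ => sq_nonneg _) (mem_range.mpr (by omega))
    have h2 : V f k ^ 2 ≤ (T ^ 2 * Y) ^ 2 := by
      refine h1.trans ((hVsum f hf).trans (le_of_eq ?_))
      ring
    exact le_of_sq_le_sq h2 (by positivity)
  have hmm : ∀ f ∈ G, mm (out (sc r (rt f).val)) ≤ T := by
    intro f hf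
    obtain ⟨h1, h2, h3⟩ := hG f hf
    refine (mm_out_sc hr0.le hr1 _).trans ?_
    have : MM f = mm (out (rt f).val) := by rw [h1.MM_eq, mm_out]; rfl
    rw [← this]; exact h3
  -- the basic inequality
  have key : ∀ f ∈ G, ∀ g ∈ G, ∀ k, 1 ≤ k → k ≤ n → (∀ j, 1 ≤ j → j < k → ac n g j = ac n f j) →
      V g k ≤ V f k → (k : ℝ) * ((|ac n f k - ac n g k| : ℤ) : ℝ) ≤
        R * (2 * k * T * τ + 4 * T * τ * Y + 2 * V f k) := by
    intro f hf g hg k hk1 hkn hj hVV
    obtain ⟨f1, f2, f3⟩ := hG f hf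
    obtain ⟨g1, g2, g3⟩ := hG g hg
    have h1 := branchC (m := sc r (rt f).val) (m' := sc r (rt g).val) (m₀ := m₀) (T := T) (τ := τ)
      (Y := Y) (by linarith) (hmm f hf) (hmm g hg) hm₀ (k := k) hτ0 hY0
      ((NN_mono hkn _).trans (hcl f hf)) ((NN_mono hkn _).trans (hcl g hg))
      ((NN_mono hkn _).trans (hNN f hf)) ((NN_mono hkn _).trans (hNN g hg))
      (top_sc f1 g1 f2 g2 r hkn hj)
    rw [norm_sc_sub f1 g1 f2 g2 hr0.le hkn] at h1
    set D : ℝ := ((|ac n f k - ac n g k| : ℤ) : ℝ) with hD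
    have hD0 : 0 ≤ D := by rw [hD]; exact_mod_cast abs_nonneg _
    have h2 : 1 ≤ r ^ k * R := by
      have : r ^ n ≤ r ^ k := pow_le_pow_of_le_one hr0.le hr1 hkn
      exact hR.trans (by gcongr)
    have h3 : (k : ℝ) * (r ^ k * D) ≤ 2 * k * T * τ + 4 * T * τ * Y + 2 * V f k := by
      have : V f k + V g k ≤ 2 * V f k := by linarith
      simp only [hV] at this ⊢
      linarith
    calc (k : ℝ) * D = 1 * (k * D) := by ring
      _ ≤ (r ^ k * R) * (k * D) := by gcongr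
      _ = R * (k * (r ^ k * D)) := by ring
      _ ≤ _ := by gcongr
  have hcrude : ∀ f ∈ G, ∀ g ∈ G, ∀ k, 1 ≤ k → k ≤ n →
      (∀ j, 1 ≤ j → j < k → ac n g j = ac n f j) → V g k ≤ V f k →
      |ac n f k - ac n g k| ≤ (B : ℤ) := by
    intro f hf g hg k hk1 hkn hj hVV
    have h1 := key f hf g hg k hk1 hkn hj hVV
    have hk1' : (1 : ℝ) ≤ k := by exact_mod_cast hk1
    have hkn' : (k : ℝ) ≤ n := by exact_mod_cast hkn
    have h2 := hVle f hf k hkn
    have h3 : ((|ac n f k - ac n g k| : ℤ) : ℝ) ≤ B := by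
      set D : ℝ := ((|ac n f k - ac n g k| : ℤ) : ℝ) with hD
      have hD0 : 0 ≤ D := by rw [hD]; exact_mod_cast abs_nonneg _
      calc D = 1 * D := by ring
        _ ≤ k * D := by gcongr
        _ ≤ _ := h1
        _ ≤ R * (2 * n * T * τ + 4 * T * τ * Y + 2 * (T ^ 2 * Y)) := by gcongr
        _ ≤ B := hB
    exact_mod_cast h3
  have hmain := tree_count G (ac n) V n K B β (fun _ => B) (by
      intro f hf g hg h
      obtain ⟨f1, f2, f3⟩ := hG f hf
      obtain ⟨g1, g2, g3⟩ := hG g hg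
      exact ac_inj f1.1 g1.1 f2 g2 h)
    (by
      intro f hf g hg k hk1 hkn _ hj hVV
      exact hcrude f hf g hg k hk1 hkn hj hVV)
    (by
      intro f hf g hg k hk1 hkn _ hj hVV
      exact hcrude f hf g hg k hk1 hkn hj hVV)
    (fun f => (Ioc K n).filter fun k : ℕ => (k : ℝ) ≤ 4 * R * V f k)
    (by
      intro f hf
      have hK0 : (0 : ℝ) < K := by exact_mod_cast hK
      set S := (Ioc K n).filter fun k : ℕ => (k : ℝ) ≤ 4 * R * V f k with hS
      have h1 : (#S : ℝ) * K ^ 2 ≤ ∑ k ∈ S, 16 * R ^ 2 * V f k ^ 2 := by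
        rw [card_eq_sum_ones, Nat.cast_sum, sum_mul]
        refine sum_le_sum fun k hk => ?_
        obtain ⟨h2, h3⟩ := mem_filter.mp hk
        rw [mem_Ioc] at h2
        have h4 : (K : ℝ) ≤ k := by exact_mod_cast h2.1.le
        calc ((1 : ℕ) : ℝ) * (K : ℝ) ^ 2 ≤ (k : ℝ) ^ 2 := by
              rw [Nat.cast_one, one_mul]; gcongr
          _ ≤ (4 * R * V f k) ^ 2 := by gcongr
          _ = _ := by ring
      have h2 : ∑ k ∈ S, 16 * R ^ 2 * V f k ^ 2 ≤ 16 * R ^ 2 * (T ^ 4 * Y ^ 2) := by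
        rw [← mul_sum]
        have h3 : ∑ k ∈ S, V f k ^ 2 ≤ ∑ j ∈ range (n + 1), V f j ^ 2 := by
          apply sum_le_sum_of_subset_of_nonneg
          · intro x hx
            have := (mem_filter.mp hx).1
            rw [mem_Ioc] at this
            rw [mem_range]; omega
          · intros; positivity
        have h4 := hVsum f hf
        gcongr
        exact h3.trans h4
      have h3 : (#S : ℝ) * K ^ 2 ≤ β * K ^ 2 := by
        refine h1.trans (h2.trans ((le_of_eq ?_).trans hβ))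
        rw [hYsq]; ring
      have h4 : (#S : ℝ) ≤ β := le_of_mul_le_mul_right h3 (by positivity)
      exact_mod_cast h4)
    (by
      intro f hf g hg k hk1 hkn hKk hj hVV hnb
      have h1 := key f hf g hg k hk1 hkn hj hVV
      have hk0 : (0 : ℝ) < k := by exact_mod_cast hk1
      have hKk' : (K : ℝ) ≤ k := by exact_mod_cast hKk.le
      have hK0 : (0 : ℝ) < K := by exact_mod_cast hK
      have h2 : 4 * R * V f k < k := by
        by_contra h
        push Not at h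
        exact hnb (mem_filter.mpr ⟨mem_Ioc.mpr ⟨hKk, hkn⟩, h⟩)
      set D : ℝ := ((|ac n f k - ac n g k| : ℤ) : ℝ) with hD
      have hD0 : 0 ≤ D := by rw [hD]; exact_mod_cast abs_nonneg _
      have h3 : 4 * T * τ * Y ≤ k * (4 * T * τ * Y / K) := by
        calc 4 * T * τ * Y = K * (4 * T * τ * Y / K) := by field_simp
          _ ≤ k * (4 * T * τ * Y / K) := by gcongr
      have h4 : (k : ℝ) * D < k * 1 := by
        calc (k : ℝ) * D ≤ R * (2 * k * T * τ + 4 * T * τ * Y + 2 * V f k) := h1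
          _ ≤ R * (2 * k * T * τ + k * (4 * T * τ * Y / K) + 2 * V f k) := by gcongr
          _ = k * (R * (2 * T * τ + 4 * T * τ * Y / K)) + 2 * R * V f k := by ring
          _ ≤ k * (1 / 4) + 2 * R * V f k := by gcongr
          _ < k * 1 := by linarith
      have h5 : D < 1 := lt_of_mul_lt_mul_left h4 hk0.le
      have h6 : |ac n f k - ac n g k| < 1 := by
        rw [hD] at h5
        exact_mod_cast h5
      have h7 := Int.abs_lt_one_iff.mp h6
      omega)
  rw [prod_const, card_range] at hmain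
  exact hmain

end Pool.Agent.Helper79.LC
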