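import Pool.Agent.Helper79.LD.Circ

/-!
Comparison of two products of Blaschke factors with nearby zeros.
-/

open Finset PowerSeries MeasureTheory intervalIntegral

namespace Pool.Agent.Helper79.LC

/-- A factor on the unit circle. -/
lemma Smb_bl {a : ℂ} (ha : 1 < ‖a‖) : Smb (bl a) := by
  rw [bl]
  apply (Smb_lin a).mul
  apply Smb_geo
  rw [norm_inv, RCLike.norm_conj]
  exact inv_lt_one_of_one_lt₀ ha

lemma ev_bl {a : ℂ} (ha : 1 < ‖a‖) (t : ℝ) :
    ev (bl a) t = (1 - a * cz t) * (1 - (starRingEnd ℂ a)⁻¹ * cz t)⁻¹ := by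
  have h : ‖(starRingEnd ℂ a)⁻¹‖ < 1 := by
    rw [norm_inv, RCLike.norm_conj]
    exact inv_lt_one_of_one_lt₀ ha
  rw [bl, ev_mul (Smb_lin a) (Smb_geo h), ev_lin, ev_geo h]

lemma Smb_one : Smb (1 : ℂ⟦X⟧) := by
  apply Smb_of_finite 1
  intro n hn
  rw [coeff_one, if_neg (by omega)]

lemma ev_one (t : ℝ) : ev (1 : ℂ⟦X⟧) t = 1 := by
  rw [ev_of_finite 1]
  · simp
  · intro n hn
    rw [coeff_one, if_neg (by omega)]

lemma Smb_BQ {m : Multiset ℂ} (hm : ∀ a ∈ m, 1 < ‖a‖) : Smb (BQ m) := by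
  induction m using Multiset.induction_on with
  | empty => rw [BQ_zero]; exact Smb_one
  | cons a m ih =>
    rw [BQ_cons]
    exact (Smb_bl (hm a (by simp))).mul (ih fun b hb => hm b (by simp [hb]))

/-- `1 - z / conj a` on the unit circle -/
lemma den_eq {a z : ℂ} (ha : a ≠ 0) (hz : ‖z‖ = 1) :
    1 - (starRingEnd ℂ a)⁻¹ * z = - ((starRingEnd ℂ a)⁻¹ * z) * starRingEnd ℂ (1 - a * z) := by
  have h1 : z * starRingEnd ℂ z = 1 := by
    rw [Complex.mul_conj, Complex.normSq_eq_norm_sq, hz]; simp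
  have h2 : starRingEnd ℂ a ≠ 0 := by simpa using ha
  rw [map_sub, map_one, map_mul]
  have h3 : (starRingEnd ℂ a)⁻¹ * starRingEnd ℂ a = 1 := inv_mul_cancel₀ h2
  linear_combination (-1 : ℂ) * h1 * (starRingEnd ℂ a)⁻¹ * starRingEnd ℂ a + (-1 : ℂ) * h3

lemma num_ne {a z : ℂ} (ha : 1 < ‖a‖) (hz : ‖z‖ = 1) : 1 - a * z ≠ 0 := by
  intro h
  have : ‖a * z‖ = 1 := by
    have : a * z = 1 := by linear_combination -h
    rw [this, norm_one]
  rw [norm_mul, hz, mul_one] at this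
  linarith

lemma bl_eq {a z : ℂ} (ha : 1 < ‖a‖) (hz : ‖z‖ = 1) :
    (1 - a * z) * (1 - (starRingEnd ℂ a)⁻¹ * z)⁻¹ =
      - (starRingEnd ℂ a * starRingEnd ℂ z) * ((1 - a * z) / starRingEnd ℂ (1 - a * z)) := by
  have ha0 : a ≠ 0 := by
    rintro rfl; simp at ha; linarith
  have hz0 : z ≠ 0 := by
    rintro rfl; simp at hz
  have h1 : z * starRingEnd ℂ z = 1 := by
    rw [Complex.mul_conj, Complex.normSq_eq_norm_sq, hz]; simp
  have h2 : starRingEnd ℂ a ≠ 0 := by simpa using ha0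
  have h3 : starRingEnd ℂ (1 - a * z) ≠ 0 := by
    rw [Ne, _root_.map_eq_zero]; exact num_ne ha hz
  rw [den_eq ha0 hz, eq_comm, ← div_eq_mul_inv, mul_div_assoc', div_eq_div_iff h3
    (mul_ne_zero (neg_ne_zero.mpr (mul_ne_zero (inv_ne_zero h2) hz0)) h3)]
  have h4 : (starRingEnd ℂ a)⁻¹ * starRingEnd ℂ a = 1 := inv_mul_cancel₀ h2
  linear_combination ((1 - a * z) * starRingEnd ℂ (1 - a * z)) * (starRingEnd ℂ a)⁻¹ *
    starRingEnd ℂ a * h1 + ((1 - a * z) * starRingEnd ℂ (1 - a * z)) * h4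

lemma norm_ev_bl {a : ℂ} (ha : 1 < ‖a‖) (t : ℝ) : ‖ev (bl a) t‖ = ‖a‖ := by
  rw [ev_bl ha, bl_eq ha (norm_cz t), norm_mul, norm_neg, norm_mul, RCLike.norm_conj,
    RCLike.norm_conj, norm_cz, mul_one, norm_div, RCLike.norm_conj, div_self, mul_one]
  rw [norm_ne_zero_iff]
  exact num_ne ha (norm_cz t)

lemma norm_ev_BQ {m : Multiset ℂ} (hm : ∀ a ∈ m, 1 < ‖a‖) (t : ℝ) : ‖ev (BQ m) t‖ = mm m := by
  induction m using Multiset.induction_on with
  | empty => rw [BQ_zero, ev_one]; simp [mm]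
  | cons a m ih =>
    have ha := hm a (by simp)
    have hm' : ∀ b ∈ m, 1 < ‖b‖ := fun b hb => hm b (by simp [hb])
    rw [BQ_cons, ev_mul (Smb_bl ha) (Smb_BQ hm'), norm_mul, ih hm', norm_ev_bl ha, mm_cons]

lemma quot_conj_sub {u v : ℂ} (hu : u ≠ 0) (hv : v ≠ 0) :
    ‖u / starRingEnd ℂ u - v / starRingEnd ℂ v‖ ≤ 2 * ‖u - v‖ / ‖u‖ := by
  have hu' : starRingEnd ℂ u ≠ 0 := by simpa using hu
  have hv' : starRingEnd ℂ v ≠ 0 := by simpa using hv
  rw [div_sub_div _ _ hu' hv', norm_div, norm_mul, RCLike.norm_conj, RCLike.norm_conj]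
  have hu0 : 0 < ‖u‖ := norm_pos_iff.mpr hu
  have hv0 : 0 < ‖v‖ := norm_pos_iff.mpr hv
  rw [div_le_div_iff₀ (by positivity) hu0]
  have e : u * starRingEnd ℂ v - starRingEnd ℂ u * v =
      (u - v) * starRingEnd ℂ v - v * starRingEnd ℂ (u - v) := by
    rw [map_sub]; ring
  rw [e]
  have h1 := norm_sub_le ((u - v) * starRingEnd ℂ v) (v * starRingEnd ℂ (u - v))
  rw [norm_mul, norm_mul, RCLike.norm_conj, RCLike.norm_conj] at h1
  calc ‖(u - v) * starRingEnd ℂ v - v * starRingEnd ℂ (u - v)‖ * ‖u‖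
      ≤ (‖u - v‖ * ‖v‖ + ‖v‖ * ‖u - v‖) * ‖u‖ := by gcongr
    _ = _ := by ring

/-- the comparison kernel -/
noncomputable def ker (T e : ℝ) (a : ℂ) (t : ℝ) : ℝ := 8 * T * e / (‖1 - a * cz t‖ + 2 * e)

lemma bl_sub {a b : ℂ} {T e : ℝ} (ha : 1 < ‖a‖) (hb : 1 < ‖b‖) (haT : ‖a‖ ≤ T) (hbT : ‖b‖ ≤ T)
    (he : 0 < e) (hab : ‖a - b‖ ≤ e) (t : ℝ) : ‖ev (bl a) t - ev (bl b) t‖ ≤ ker T e a t := by
  have hT : 1 < T := lt_of_lt_of_le ha haT
  have hz := norm_cz t
  have hu := num_ne ha hz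
  have hv := num_ne hb hz
  have hu0 : 0 < ‖1 - a * cz t‖ := norm_pos_iff.mpr hu
  have h1 : ‖ev (bl a) t - ev (bl b) t‖ ≤ 2 * T := by
    refine (norm_sub_le _ _).trans ?_
    rw [norm_ev_bl ha, norm_ev_bl hb]; linarith
  have h2 : ‖ev (bl a) t - ev (bl b) t‖ ≤ 4 * T * e / ‖1 - a * cz t‖ := by
    rw [ev_bl ha, ev_bl hb, bl_eq ha hz, bl_eq hb hz]
    set u := 1 - a * cz t with hu'
    set v := 1 - b * cz t with hv'
    have e1 : -(starRingEnd ℂ a * starRingEnd ℂ (cz t)) * (u / starRingEnd ℂ u) -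
        -(starRingEnd ℂ b * starRingEnd ℂ (cz t)) * (v / starRingEnd ℂ v) =
        -(starRingEnd ℂ (a - b) * starRingEnd ℂ (cz t)) * (u / starRingEnd ℂ u) -
        (starRingEnd ℂ b * starRingEnd ℂ (cz t)) * (u / starRingEnd ℂ u - v / starRingEnd ℂ v) := by
      have e0 : starRingEnd ℂ (a - b) = starRingEnd ℂ a - starRingEnd ℂ b := map_sub _ _ _
      rw [e0]; ring
    rw [e1]
    refine (norm_sub_le _ _).trans ?_
    have e2 : ‖u / starRingEnd ℂ u‖ = 1 := by
      rw [norm_div, RCLike.norm_conj, div_self hu0.ne']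
    rw [norm_mul, norm_neg, norm_mul, RCLike.norm_conj, RCLike.norm_conj, hz, mul_one, e2, mul_one,
      norm_mul, norm_mul, RCLike.norm_conj, RCLike.norm_conj, hz, mul_one]
    have e3 : ‖u - v‖ ≤ e := by
      have : u - v = -(a - b) * cz t := by rw [hu', hv']; ring
      rw [this, norm_mul, norm_neg, hz, mul_one]; exact hab
    have e4 := quot_conj_sub hu hv
    have e5 : ‖u‖ ≤ 2 * T := by
      have : ‖u‖ ≤ ‖(1 : ℂ)‖ + ‖a * cz t‖ := norm_sub_le _ _
      rw [norm_one, norm_mul, hz, mul_one] at this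
      linarith
    have e6 : ‖a - b‖ ≤ 2 * T * e / ‖u‖ := by
      rw [le_div_iff₀ hu0]
      calc ‖a - b‖ * ‖u‖ ≤ e * (2 * T) := by gcongr
        _ = _ := by ring
    have e7 : ‖b‖ * ‖u / starRingEnd ℂ u - v / starRingEnd ℂ v‖ ≤ 2 * T * e / ‖u‖ := by
      calc ‖b‖ * ‖u / starRingEnd ℂ u - v / starRingEnd ℂ v‖ ≤ T * (2 * e / ‖u‖) := by
            gcongr
            exact e4.trans (by gcongr)
        _ = _ := by ring
    calc ‖a - b‖ + ‖b‖ * ‖u / starRingEnd ℂ u - v / starRingEnd ℂ v‖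
        ≤ 2 * T * e / ‖u‖ + 2 * T * e / ‖u‖ := add_le_add e6 e7
      _ = _ := by ring
  rw [ker, le_div_iff₀ (by positivity)]
  rw [le_div_iff₀ hu0] at h2
  nlinarith

lemma ker_nonneg {T e : ℝ} (hT : 0 ≤ T) (he : 0 ≤ e) (a : ℂ) (t : ℝ) : 0 ≤ ker T e a t := by
  rw [ker]; positivity

/-- relation between nearby outer points -/
def Near (T : ℝ) (e : ℂ → ℝ) (a b : ℂ) : Prop :=
  1 < ‖a‖ ∧ 1 < ‖b‖ ∧ ‖a‖ ≤ T ∧ ‖b‖ ≤ T ∧ 0 < e a ∧ ‖a - b‖ ≤ e a

lemma BQ_sub {T : ℝ} (hT : 0 ≤ T) {e : ℂ → ℝ} {m m' : Multiset ℂ} (h : Multiset.Rel (Near T e) m m')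
    (t : ℝ) : (∀ a ∈ m, 1 < ‖a‖) ∧ (∀ a ∈ m', 1 < ‖a‖) ∧
      0 ≤ (m.map fun a => ker T (e a) a t).sum ∧
      ‖ev (BQ m) t - ev (BQ m') t‖ ≤ mm m * mm m' * (m.map fun a => ker T (e a) a t).sum := by
  induction h with
  | zero => simp [BQ_zero]
  | @cons a b m m' hab h ih =>
    obtain ⟨ha, hb, haT, hbT, he, hd⟩ := hab
    obtain ⟨h1, h2, h3, h4⟩ := ih
    have hk := ker_nonneg hT he.le a t
    refine ⟨?_, ?_, ?_, ?_⟩
    · intro x hx
      rcases Multiset.mem_cons.mp hx with rfl | hx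
      · exact ha
      · exact h1 x hx
    · intro x hx
      rcases Multiset.mem_cons.mp hx with rfl | hx
      · exact hb
      · exact h2 x hx
    · rw [Multiset.map_cons, Multiset.sum_cons]
      positivity
    · rw [BQ_cons, BQ_cons, ev_mul (Smb_bl ha) (Smb_BQ h1), ev_mul (Smb_bl hb) (Smb_BQ h2),
        Multiset.map_cons, Multiset.sum_cons, mm_cons, mm_cons]
      set Sg := (m.map fun a => ker T (e a) a t).sum with hSg
      have e1 : ev (bl a) t * ev (BQ m) t - ev (bl b) t * ev (BQ m') t =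
          (ev (bl a) t - ev (bl b) t) * ev (BQ m) t +
            ev (bl b) t * (ev (BQ m) t - ev (BQ m') t) := by ring
      rw [e1]
      refine (norm_add_le _ _).trans ?_
      rw [norm_mul, norm_mul, norm_ev_BQ h1, norm_ev_bl hb]
      have e2 := bl_sub ha hb haT hbT he hd t
      have p1 := mm_pos m h1
      have p2 := mm_pos m' h2
      have e3 : ‖ev (bl a) t - ev (bl b) t‖ * mm m ≤
          ‖a‖ * mm m * (‖b‖ * mm m') * ker T (e a) a t := by
        calc ‖ev (bl a) t - ev (bl b) t‖ * mm m ≤ ker T (e a) a t * mm m := by gcongr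
          _ = (1 * mm m * (1 * 1)) * ker T (e a) a t := by ring
          _ ≤ _ := by gcongr
      have e4 : ‖b‖ * ‖ev (BQ m) t - ev (BQ m') t‖ ≤
          ‖a‖ * mm m * (‖b‖ * mm m') * Sg := by
        calc ‖b‖ * ‖ev (BQ m) t - ev (BQ m') t‖ ≤ ‖b‖ * (mm m * mm m' * Sg) := by gcongr
          _ = 1 * mm m * (‖b‖ * mm m') * Sg := by ring
          _ ≤ _ := by gcongr
      linarith

/-- lower bound for the distance on the circle -/
lemma dist_ge {a : ℂ} (ha : 1 ≤ ‖a‖) {s : ℝ} (hs : |s| ≤ Real.pi) :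
    2 / Real.pi * |s| ≤ ‖1 - a * cz (s - a.arg)‖ := by
  have h1 : a * cz (s - a.arg) = ‖a‖ * cz s := by
    have hp := Complex.norm_mul_exp_arg_mul_I a
    calc a * cz (s - a.arg) = (‖a‖ * Complex.exp (a.arg * Complex.I)) * cz (s - a.arg) := by
          rw [hp]
      _ = ‖a‖ * cz s := by
          rw [cz, cz, mul_assoc, ← Complex.exp_add]
          congr 2
          push_cast; ring
  rw [h1]
  have h2 : ‖1 - (‖a‖ : ℂ) * cz s‖ ^ 2 = (‖a‖ - 1) ^ 2 + 4 * ‖a‖ * Real.sin (s / 2) ^ 2 := by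
    have h3 : (1 : ℂ) - (‖a‖ : ℂ) * cz s = ((1 - ‖a‖ * Real.cos s : ℝ) : ℂ) +
        ((- (‖a‖ * Real.sin s) : ℝ) : ℂ) * Complex.I := by
      rw [cz, Complex.exp_mul_I]
      push_cast; ring
    rw [h3, Complex.sq_norm, Complex.normSq_add_mul_I]
    have h4 : Real.cos s = 1 - 2 * Real.sin (s / 2) ^ 2 := by
      have := Real.cos_two_mul (s / 2)
      rw [show 2 * (s / 2) = s by ring] at this
      rw [this]
      have := Real.sin_sq_add_cos_sq (s / 2)
      linarith
    have h5 := Real.sin_sq_add_cos_sq s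
    have h6 : Real.sin s ^ 2 = 1 - Real.cos s ^ 2 := by linarith
    have h7 : (-(‖a‖ * Real.sin s)) ^ 2 = ‖a‖ ^ 2 * Real.sin s ^ 2 := by ring
    rw [h7, h6, h4]
    ring
  have h3 := Real.mul_abs_le_abs_sin (x := s / 2) (by
    rw [abs_div, abs_of_pos (by norm_num : (0 : ℝ) < 2)]; linarith)
  apply le_of_sq_le_sq _ (norm_nonneg _)
  rw [h2]
  have h4 : (2 / Real.pi * |s|) ^ 2 ≤ 4 * Real.sin (s / 2) ^ 2 := by
    have h5 : 2 / Real.pi * |s| ≤ 2 * |Real.sin (s / 2)| := by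
      rw [abs_div, abs_of_pos (by norm_num : (0 : ℝ) < 2)] at h3
      linarith
    calc (2 / Real.pi * |s|) ^ 2 ≤ (2 * |Real.sin (s / 2)|) ^ 2 := by gcongr
      _ = _ := by rw [mul_pow, sq_abs]; ring
  have h5 : 4 * Real.sin (s / 2) ^ 2 ≤ 4 * ‖a‖ * Real.sin (s / 2) ^ 2 := by
    have : 0 ≤ Real.sin (s / 2) ^ 2 := by positivity
    nlinarith
  have h6 : 0 ≤ (‖a‖ - 1) ^ 2 := by positivity
  linarith

lemma cz_periodic : Function.Periodic cz (2 * Real.pi) := by
  intro t
  rw [cz, cz]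
  push_cast
  rw [add_mul, Complex.exp_add, Complex.exp_two_pi_mul_I, mul_one]

/-- elementary integral -/
lemma int_abs {e : ℝ} (he : 0 < e) :
    ∫ s in (-Real.pi)..Real.pi, 1 / (2 / Real.pi * |s| + e) = Real.pi * Real.log (1 + 2 / e) := by
  have hpi := Real.pi_pos
  have hc : Continuous fun s : ℝ => 1 / (2 / Real.pi * |s| + e) := by
    apply Continuous.div continuous_const (by fun_prop)
    intro s; positivity
  have h1 : ∫ s in (0 : ℝ)..Real.pi, 1 / (2 / Real.pi * |s| + e) =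
      Real.pi / 2 * Real.log (1 + 2 / e) := by
    have h2 : ∀ s ∈ Set.uIcc 0 Real.pi, HasDerivAt
        (fun s : ℝ => Real.pi / 2 * Real.log (2 / Real.pi * s + e))
        (1 / (2 / Real.pi * |s| + e)) s := by
      intro s hs
      rw [Set.uIcc_of_le hpi.le] at hs
      have hp : 0 < 2 / Real.pi * s + e := by
        have := hs.1; positivity
      have h3 : HasDerivAt (fun s : ℝ => 2 / Real.pi * s + e) (2 / Real.pi * 1) s :=
        ((hasDerivAt_id s).const_mul _).add_const _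
      have h4 := (h3.log hp.ne').const_mul (Real.pi / 2)
      have h5 : 1 / (2 / Real.pi * |s| + e) =
          Real.pi / 2 * (2 / Real.pi * 1 / (2 / Real.pi * s + e)) := by
        rw [abs_of_nonneg hs.1]
        field_simp
      rw [h5]
      exact h4
    rw [intervalIntegral.integral_eq_sub_of_hasDerivAt h2 (hc.intervalIntegrable _ _)]
    have h5 : 2 / Real.pi * Real.pi + e = 2 + e := by field_simp
    rw [h5, mul_zero, zero_add, ← mul_sub, ← Real.log_div (by positivity) he.ne']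
    congr 2
    field_simp
    ring
  have h2 : ∫ s in (-Real.pi)..0, 1 / (2 / Real.pi * |s| + e) =
      ∫ s in (0 : ℝ)..Real.pi, 1 / (2 / Real.pi * |s| + e) := by
    have := intervalIntegral.integral_comp_neg (a := 0) (b := Real.pi)
      (fun s : ℝ => 1 / (2 / Real.pi * |s| + e))
    rw [neg_zero] at this
    rw [← this]
    simp only [abs_neg]
  rw [← intervalIntegral.integral_add_adjacent_intervals (hc.intervalIntegrable _ 0)
    (hc.intervalIntegrable _ _), h2, h1]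
  ring

lemma int_ker {T e : ℝ} (hT : 0 ≤ T) (he : 0 < e) {a : ℂ} (ha : 1 ≤ ‖a‖) :
    ∫ t in (0 : ℝ)..2 * Real.pi, ker T e a t ≤ 8 * T * e * (Real.pi * Real.log (1 + 1 / e)) := by
  have hpi := Real.pi_pos
  have hcont : Continuous fun t => ker T e a t := by
    unfold ker
    apply Continuous.div continuous_const
    · have := continuous_cz
      fun_prop
    · intro t; positivity
  have hper : Function.Periodic (fun t => ker T e a t) (2 * Real.pi) := by
    intro t
    simp only [ker]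
    rw [cz_periodic t]
  have h1 : ∫ t in (0 : ℝ)..2 * Real.pi, ker T e a t =
      ∫ s in (-Real.pi)..Real.pi, ker T e a (s - a.arg) := by
    rw [intervalIntegral.integral_comp_sub_right (fun t => ker T e a t)]
    have := hper.intervalIntegral_add_eq 0 (-Real.pi - a.arg)
    rw [zero_add] at this
    rw [this]
    congr 1
    ring
  rw [h1]
  have h2 : ∫ s in (-Real.pi)..Real.pi, ker T e a (s - a.arg) ≤
      ∫ s in (-Real.pi)..Real.pi, 8 * T * e * (1 / (2 / Real.pi * |s| + 2 * e)) := by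
    apply intervalIntegral.integral_mono_on (by linarith)
    · apply Continuous.intervalIntegrable
      exact hcont.comp (by fun_prop)
    · apply Continuous.intervalIntegrable
      apply continuous_const.mul
      apply Continuous.div continuous_const (by fun_prop)
      intro s; positivity
    · intro s hs
      have hs' : |s| ≤ Real.pi := abs_le.mpr ⟨hs.1, hs.2⟩
      have h3 := dist_ge ha hs'
      rw [ker, mul_one_div]
      gcongr
  refine h2.trans (le_of_eq ?_)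
  rw [intervalIntegral.integral_const_mul, int_abs (by positivity)]
  congr 3
  field_simp

/-- Two products with nearby zeros are close in mean square. -/
theorem NN_close {T : ℝ} (hT : 1 ≤ T) {e : ℂ → ℝ} {m m' : Multiset ℂ}
    (h : Multiset.Rel (Near T e) m m') (hm : mm m ≤ T) (hm' : mm m' ≤ T) (k : ℕ) :
    NN k (BQ m - BQ m') ≤ 8 * T ^ 4 * (m.map fun a => e a * Real.log (1 + 1 / e a)).sum := by
  have hpi := Real.pi_pos
  have hT0 : 0 ≤ T := by linarith
  obtain ⟨h1, h2, _, _⟩ := BQ_sub hT0 h 0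
  have hs1 := Smb_BQ h1
  have hs2 := Smb_BQ h2
  have p1 := mm_pos m h1
  have p2 := mm_pos m' h2
  have hpar := parseval (hs1.sub hs2) k
  have hcont : ∀ a e, 0 < e → Continuous fun t => ker T e a t := by
    intro a e he
    unfold ker
    apply Continuous.div continuous_const
    · have := continuous_cz
      fun_prop
    · intro t; positivity
  -- pointwise bound
  have hpt : ∀ t, ‖ev (BQ m - BQ m') t‖ ^ 2 ≤
      2 * T ^ 3 * (m.map fun a => ker T (e a) a t).sum := by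
    intro t
    obtain ⟨_, _, h3, h4⟩ := BQ_sub hT0 h t
    rw [ev_sub hs1 hs2]
    have h5 : ‖ev (BQ m) t - ev (BQ m') t‖ ≤ 2 * T := by
      refine (norm_sub_le _ _).trans ?_
      rw [norm_ev_BQ h1, norm_ev_BQ h2]; linarith
    have h6 : ‖ev (BQ m) t - ev (BQ m') t‖ ≤ T * T * (m.map fun a => ker T (e a) a t).sum := by
      refine h4.trans ?_
      gcongr
    calc ‖ev (BQ m) t - ev (BQ m') t‖ ^ 2
        = ‖ev (BQ m) t - ev (BQ m') t‖ * ‖ev (BQ m) t - ev (BQ m') t‖ := sq _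
      _ ≤ (2 * T) * (T * T * (m.map fun a => ker T (e a) a t).sum) := by gcongr
      _ = _ := by ring
  -- positivity of the tolerances
  have hpos : ∀ a ∈ m, 0 < e a := by
    intro a ha
    obtain ⟨b, _, hb⟩ := Multiset.exists_mem_of_rel_of_mem h ha
    exact hb.2.2.2.2.1
  -- integration
  have hint : ∀ l : Multiset ℂ, (∀ a ∈ l, 0 < e a ∧ 1 < ‖a‖) →
      Continuous (fun t => (l.map fun a => ker T (e a) a t).sum) ∧
      ∫ t in (0 : ℝ)..2 * Real.pi, (l.map fun a => ker T (e a) a t).sum ≤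
        8 * T * Real.pi * (l.map fun a => e a * Real.log (1 + 1 / e a)).sum := by
    intro l
    induction l using Multiset.induction_on with
    | empty => intro _; simp [continuous_const]
    | cons a l ih =>
      intro hl
      obtain ⟨c1, c2⟩ := ih (fun b hb => hl b (by simp [hb]))
      obtain ⟨c3, c4⟩ := hl a (by simp)
      have c5 := hcont a (e a) c3
      simp only [Multiset.map_cons, Multiset.sum_cons]
      refine ⟨c5.add c1, ?_⟩
      rw [intervalIntegral.integral_add (c5.intervalIntegrable _ _) (c1.intervalIntegrable _ _)]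
      have c6 := int_ker hT0 c3 c4.le
      rw [mul_add]
      refine add_le_add (c6.trans (le_of_eq (by ring))) c2
  obtain ⟨hc, hI⟩ := hint m (fun a ha => ⟨hpos a ha, h1 a ha⟩)
  have hfin : ∫ t in (0 : ℝ)..2 * Real.pi, ‖ev (BQ m - BQ m') t‖ ^ 2 ≤
      2 * T ^ 3 * (8 * T * Real.pi * (m.map fun a => e a * Real.log (1 + 1 / e a)).sum) := by
    calc ∫ t in (0 : ℝ)..2 * Real.pi, ‖ev (BQ m - BQ m') t‖ ^ 2
        ≤ ∫ t in (0 : ℝ)..2 * Real.pi, 2 * T ^ 3 * (m.map fun a => ker T (e a) a t).sum := by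
          apply intervalIntegral.integral_mono_on (by positivity)
          · apply Continuous.intervalIntegrable
            have := continuous_ev (hs1.sub hs2)
            fun_prop
          · apply Continuous.intervalIntegrable
            exact continuous_const.mul hc
          · intro t _
            exact hpt t
      _ = 2 * T ^ 3 * ∫ t in (0 : ℝ)..2 * Real.pi, (m.map fun a => ker T (e a) a t).sum := by
          rw [intervalIntegral.integral_const_mul]
      _ ≤ _ := by gcongr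
  have h7 := hpar.trans hfin
  have h8 : 2 * Real.pi * NN k (BQ m - BQ m') ≤ 2 * Real.pi *
      (8 * T ^ 4 * (m.map fun a => e a * Real.log (1 + 1 / e a)).sum) := by
    refine h7.trans (le_of_eq ?_)
    ring
  exact le_of_mul_le_mul_left h8 (by positivity)

end Pool.Agent.Helper79.LC
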