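import Pool.Agent.Helper79.LD.Cnt
import Pool.Agent.Helper79.LD.Cell

/-!
Counting separable polynomials with few roots outside a slightly larger disc.
-/

open Finset

namespace Pool.Agent.Helper79.LC

lemma sum_excess {m : Multiset ℂ} (h : ∀ a ∈ m, 1 < ‖a‖) :
    (m.map fun a => ‖a‖ - 1).sum ≤ mm m - 1 := by
  induction m using Multiset.induction_on with
  | empty => simp [mm]
  | cons a m ih =>
    have h1 := h a (by simp)
    have h2 := ih fun b hb => h b (by simp [hb])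
    have h3 := mm_pos m fun b hb => h b (by simp [hb])
    rw [Multiset.map_cons, Multiset.sum_cons, mm_cons]
    nlinarith

lemma sum_e_le {κ ε T Λ : ℝ} (hκ : 0 < κ) (hε : 0 < ε) (hT : 1 ≤ T) {m : Multiset ℂ}
    (hm : ∀ a ∈ m, 1 < ‖a‖) (hmT : mm m ≤ T) {s : ℕ} (hs : Multiset.card m ≤ s)
    (hεs : ε * s ≤ T) (hΛ : Real.log (1 + 1 / (κ * ε)) ≤ Λ) :
    (m.map fun a => (1 + T) * κ * nu ε a * Real.log (1 + 1 / ((1 + T) * κ * nu ε a))).sum ≤
      (1 + T) * κ * (2 * T) * Λ := by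
  have hΛ0 : 0 ≤ Λ := by
    refine le_trans ?_ hΛ
    apply Real.log_nonneg
    have : 0 < 1 / (κ * ε) := by positivity
    linarith
  have h1 : (m.map fun a => (1 + T) * κ * nu ε a * Real.log (1 + 1 / ((1 + T) * κ * nu ε a))).sum ≤
      (m.map fun a => ((1 + T) * κ * Λ) * nu ε a).sum := by
    apply Multiset.sum_map_le_sum_map
    intro a ha
    have h2 := nu_gt (ε := ε) (hm a ha)
    have h3 : 0 < nu ε a := hε.trans h2
    have h4 : Real.log (1 + 1 / ((1 + T) * κ * nu ε a)) ≤ Λ := by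
      refine le_trans ?_ hΛ
      apply Real.log_le_log (by positivity)
      have h5 : κ * ε ≤ (1 + T) * κ * nu ε a := by
        calc κ * ε ≤ κ * nu ε a := by gcongr
          _ = 1 * (κ * nu ε a) := by ring
          _ ≤ (1 + T) * (κ * nu ε a) := by gcongr; linarith
          _ = _ := by ring
      gcongr
    calc (1 + T) * κ * nu ε a * Real.log (1 + 1 / ((1 + T) * κ * nu ε a))
        ≤ (1 + T) * κ * nu ε a * Λ := by gcongr
      _ = _ := by ring
  refine h1.trans ?_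
  rw [Multiset.sum_map_mul_left]
  have h2 : (m.map fun a => nu ε a).sum = (m.map fun a => ‖a‖ - 1).sum + Multiset.card m * ε := by
    have : (fun a => nu ε a) = fun a : ℂ => (‖a‖ - 1) + ε := rfl
    rw [this, Multiset.sum_map_add]
    simp
  have h3 := sum_excess hm
  have h4 : (Multiset.card m : ℝ) * ε ≤ T := by
    have : (Multiset.card m : ℝ) ≤ s := by exact_mod_cast hs
    calc (Multiset.card m : ℝ) * ε ≤ s * ε := by gcongr
      _ = ε * s := by ring
      _ ≤ T := hεs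
  rw [h2]
  calc (1 + T) * κ * Λ * ((m.map fun a => ‖a‖ - 1).sum + Multiset.card m * ε)
      ≤ (1 + T) * κ * Λ * (2 * T) := by
        gcongr
        linarith
    _ = _ := by ring

lemma norm_le_mm {m : Multiset ℂ} (h : ∀ a ∈ m, 1 < ‖a‖) : ∀ a ∈ m, ‖a‖ ≤ mm m := by
  induction m using Multiset.induction_on with
  | empty => intro a ha; simp at ha
  | cons b m ih =>
    have h1 := h b (by simp)
    have h2 := ih fun c hc => h c (by simp [hc])
    have h3 := mm_pos m fun c hc => h c (by simp [hc])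
    intro a ha
    rw [mm_cons]
    rcases Multiset.mem_cons.mp ha with rfl | ha
    · nlinarith
    · have := h2 a ha
      nlinarith

theorem level_count {n K B' β s N A B : ℕ} {T r R τ E κ ε Λ : ℝ} (hT : 1 ≤ T) (hr0 : 0 < r)
    (hr1 : r ≤ 1) (hR : 1 ≤ r ^ n * R) (hτ0 : 0 ≤ τ) (hE : 0 ≤ E) (hs1 : 1 ≤ s)
    (hκ : 0 < κ) (hε : 0 < ε) (hε1 : ε ≤ 1)
    (hN : T ≤ ε * N) (hA : 2 ≤ κ * A) (hB : 7 ≤ κ * ε * B)
    (hεs : ε * s ≤ T) (hΛ : Real.log (1 + 1 / (κ * ε)) ≤ Λ)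
    (hτ : 16 * T ^ 5 * (1 + T) * κ * Λ ≤ τ ^ 2)
    (F : Finset (Polynomial ℤ)) (hF : ∀ f ∈ F, Sp f ∧ f.natDegree = n ∧ MM f ≤ T ∧
      Multiset.card (out (sc r (rt f).val)) ≤ s)
    (hAA : ∀ f ∈ F, AA (sc r (rt f).val) n ≤ E) (hK : 1 ≤ K)
    (hsmall : R * (2 * T * τ + 4 * T * τ * √(n * E) / K) ≤ 1 / 4)
    (hB' : R * (2 * n * T * τ + 4 * T * τ * √(n * E) + 2 * (T ^ 2 * √(n * E))) ≤ B')
    (hβ : 16 * R ^ 2 * T ^ 4 * (n * E) ≤ β * K ^ 2) :
    (#F : ℝ) ≤ (Real.exp 1 * (((Nat.log 2 N + 1) * ((A + 1) * (B + 1)) : ℕ) + 1 + s) / s) ^ s *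
      (((2 * B' + 1) ^ K * ((n + 1) * (2 * B' + 1)) ^ β : ℕ) : ℝ) := by
  classical
  set w : Polynomial ℤ → Multiset (Fin (Nat.log 2 N + 1) × Fin (A + 1) × Fin (B + 1)) :=
    fun f => (out (sc r (rt f).val)).map (cf (Nat.log 2 N) A B κ ε) with hw
  have hmm : ∀ f ∈ F, mm (out (sc r (rt f).val)) ≤ T := by
    intro f hf
    obtain ⟨h1, h2, h3, _⟩ := hF f hf
    refine (mm_out_sc hr0.le hr1 _).trans ?_
    have : MM f = mm (out (rt f).val) := by rw [h1.MM_eq, mm_out]; rfl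
    rw [← this]; exact h3
  have hgt : ∀ m : Multiset ℂ, ∀ a ∈ out m, 1 < ‖a‖ := fun m a ha => (Multiset.mem_filter.mp ha).2
  have hfib : ∀ c ∈ F.image w, #(F.filter fun f => w f = c) ≤
      (2 * B' + 1) ^ K * ((n + 1) * (2 * B' + 1)) ^ β := by
    intro c hc
    obtain ⟨g, hg, rfl⟩ := mem_image.mp hc
    apply class_count hT hr0 hr1 hR hτ0 hE _ _ (sc r (rt g).val) (hmm g hg) _ _ hK hsmall hB' hβ
    · intro f hf
      obtain ⟨h1, h2, h3, _⟩ := hF f (mem_filter.mp hf).1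
      exact ⟨h1, h2, h3⟩
    · intro f hf
      obtain ⟨hf1, hf2⟩ := mem_filter.mp hf
      have h1 := rel_of_code hκ hε hε1 hN hA hB (m := out (sc r (rt f).val))
        (m' := out (sc r (rt g).val))
        (fun a ha => ⟨hgt _ a ha, (norm_le_mm (hgt _) a ha).trans (hmm f hf1)⟩)
        (fun a ha => ⟨hgt _ a ha, (norm_le_mm (hgt _) a ha).trans (hmm g hg)⟩) hf2
      have h2 := NN_close hT h1 (hmm f hf1) (hmm g hg) n
      have h3 := sum_e_le hκ hε hT (hgt _) (hmm f hf1) (hF f hf1).2.2.2 hεs hΛ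
      refine h2.trans ?_
      calc 8 * T ^ 4 * ((out (sc r (rt f).val)).map fun a => (1 + T) * κ * nu ε a *
            Real.log (1 + 1 / ((1 + T) * κ * nu ε a))).sum
          ≤ 8 * T ^ 4 * ((1 + T) * κ * (2 * T) * Λ) := by gcongr
        _ = 16 * T ^ 5 * (1 + T) * κ * Λ := by ring
        _ ≤ τ ^ 2 := hτ
    · intro f hf
      exact hAA f (mem_filter.mp hf).1
  have h1 := card_le_mul_card_image F _ hfib
  have h2 := card_codes F w s hs1 (by
    intro f hf
    rw [hw, Multiset.card_map]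
    exact (hF f hf).2.2.2)
  have h3 : Fintype.card (Fin (Nat.log 2 N + 1) × Fin (A + 1) × Fin (B + 1)) =
      (Nat.log 2 N + 1) * ((A + 1) * (B + 1)) := by
    simp only [Fintype.card_prod, Fintype.card_fin]
  rw [h3] at h2
  have h4 : (#F : ℝ) ≤ (((2 * B' + 1) ^ K * ((n + 1) * (2 * B' + 1)) ^ β : ℕ) : ℝ) *
      #(F.image w) := by exact_mod_cast h1
  refine h4.trans ?_
  rw [mul_comm]
  gcongr

end Pool.Agent.Helper79.LC
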