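import Mathlib

/-!
Numerical estimates for the final count.
-/

open Finset

namespace Pool.Agent.Helper79.LC

lemma fac2 {n K β : ℕ} {L : ℝ} (hn : 3 ≤ n) (hL : L = Real.log n) (hL1 : 1 ≤ L)
    (hK : (K : ℝ) ≤ 2 * n / L ^ 2) (hβ : (β : ℝ) ≤ 2 * √n) (hLn : L ^ 2 ≤ √n) :
    (((2 * (n ^ 2) + 1) ^ K * ((n + 1) * (2 * (n ^ 2) + 1)) ^ β : ℕ) : ℝ) ≤
      Real.exp (16 * n / L) := by
  have hn0 : (0 : ℝ) < n := by positivity
  have hn3 : (3 : ℝ) ≤ n := by exact_mod_cast hn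
  have hL0 : 0 < L := by linarith
  have hexp : Real.exp L = n := by rw [hL, Real.exp_log hn0]
  have h1 : (2 * (n : ℝ) ^ 2 + 1) ≤ Real.exp (3 * L) := by
    have : Real.exp (3 * L) = (n : ℝ) ^ 3 := by
      rw [← hexp, ← Real.exp_nat_mul]; norm_num
    rw [this]; nlinarith [sq_nonneg (n : ℝ)]
  have h2 : ((n : ℝ) + 1) * (2 * (n : ℝ) ^ 2 + 1) ≤ Real.exp (5 * L) := by
    have h3 : ((n : ℝ) + 1) ≤ Real.exp (2 * L) := by
      have : Real.exp (2 * L) = (n : ℝ) ^ 2 := by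
        rw [← hexp, ← Real.exp_nat_mul]; norm_num
      rw [this]; nlinarith
    calc ((n : ℝ) + 1) * (2 * (n : ℝ) ^ 2 + 1) ≤ Real.exp (2 * L) * Real.exp (3 * L) := by gcongr
      _ = _ := by rw [← Real.exp_add]; ring_nf
  push_cast
  calc (2 * (n : ℝ) ^ 2 + 1) ^ K * (((n : ℝ) + 1) * (2 * (n : ℝ) ^ 2 + 1)) ^ β
      ≤ Real.exp (3 * L) ^ K * Real.exp (5 * L) ^ β := by gcongr
    _ = Real.exp (K * (3 * L) + β * (5 * L)) := by
        rw [← Real.exp_nat_mul, ← Real.exp_nat_mul, ← Real.exp_add]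
    _ ≤ _ := by
        apply Real.exp_le_exp.mpr
        have h3 : (K : ℝ) * (3 * L) ≤ 2 * n / L ^ 2 * (3 * L) := by gcongr
        have h4 : 2 * (n : ℝ) / L ^ 2 * (3 * L) = 6 * n / L := by field_simp; ring
        have h5 : (β : ℝ) * (5 * L) ≤ 2 * √n * (5 * L) := by gcongr
        have h6 : 2 * √(n : ℝ) * (5 * L) ≤ 10 * n / L := by
          rw [le_div_iff₀ hL0]
          have h7 : √(n : ℝ) * √(n : ℝ) = n := Real.mul_self_sqrt hn0.le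
          calc 2 * √(n : ℝ) * (5 * L) * L = 10 * (√(n : ℝ) * L ^ 2) := by ring
            _ ≤ 10 * (√(n : ℝ) * √(n : ℝ)) := by gcongr
            _ = 10 * n := by rw [h7]
        have h8 : 16 * (n : ℝ) / L = 6 * n / L + 10 * n / L := by ring
        linarith

lemma natlog_le {n : ℕ} {L : ℝ} (hn : 3 ≤ n) (hL : L = Real.log n) (hL1 : 1 ≤ L) :
    ((Nat.log 2 (n ^ 2) + 1 : ℕ) : ℝ) ≤ 4 * L := by
  have hn0 : (0 : ℝ) < n := by positivity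
  have h1 : 2 ^ Nat.log 2 (n ^ 2) ≤ n ^ 2 := Nat.pow_log_le_self 2 (by positivity)
  have h2 : ((2 : ℝ) ^ Nat.log 2 (n ^ 2)) ≤ (n : ℝ) ^ 2 := by exact_mod_cast h1
  have h3 := Real.log_le_log (by positivity) h2
  rw [Real.log_pow, Real.log_pow, ← hL] at h3
  have h4 := Real.log_two_gt_d9
  push_cast at h3 ⊢
  nlinarith

/-- The number of classes. -/
lemma fac1 {n a s A B Nl : ℕ} {T L ρ κ c : ℝ} (hT : 1 ≤ T) (hn : 3 ≤ n)
    (hL1 : 1 ≤ L) (hρ1 : 1 ≤ ρ) (ha1 : 1 ≤ a) (haL : (a : ℝ) ≤ L)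
    (hκ : 0 < κ) (hκ1 : κ ≤ 1) (hρn : ρ ≤ n)
    (hNl : (Nl : ℝ) ≤ 4 * L) (hA : (A : ℝ) ≤ 2 / κ + 1) (hB : (B : ℝ) ≤ 7 / (κ * (ρ / n)) + 1)
    (hs1 : 1 ≤ s) (hs2 : 2 * n * T ≤ a * ρ * s) (hs3 : a * ρ * s ≤ 3 * n * T)
    (hc : 400 * L ^ 2 / κ ^ 2 ≤ Real.exp (c * ρ)) (hNl1 : 1 ≤ Nl) (hc0 : 0 ≤ c) :
    (Real.exp 1 * (((Nl) * ((A + 1) * (B + 1)) : ℕ) + 1 + s) / s) ^ s ≤
      Real.exp (3 * T * c * n / a) := by
  have hn0 : (0 : ℝ) < n := by positivity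
  have hs0 : (0 : ℝ) < s := by exact_mod_cast hs1
  have ha0 : (0 : ℝ) < a := by exact_mod_cast ha1
  have hρ0 : 0 < ρ := by linarith
  have hL0 : 0 < L := by linarith
  -- size of the alphabet
  have hA1 : (A : ℝ) + 1 ≤ 4 / κ := by
    have : (2 : ℝ) ≤ 2 / κ := by rw [le_div_iff₀ hκ]; linarith
    have e : 4 / κ = 2 / κ + 2 / κ := by ring
    linarith
  have hB1 : (B : ℝ) + 1 ≤ 9 * n / (κ * ρ) := by
    have h1 : κ * ρ ≤ n := by
      calc κ * ρ ≤ 1 * n := by gcongr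
        _ = n := one_mul _
    have h2 : (2 : ℝ) ≤ 2 * n / (κ * ρ) := by
      rw [le_div_iff₀ (by positivity)]; linarith
    have e : 9 * n / (κ * ρ) = 7 / (κ * (ρ / n)) + 2 * n / (κ * ρ) := by field_simp; ring
    linarith
  set Z : ℝ := ((Nl * ((A + 1) * (B + 1)) : ℕ) : ℝ) with hZ
  have hZ1 : 1 ≤ Z := by
    rw [hZ]
    have : 1 ≤ Nl * ((A + 1) * (B + 1)) := Nat.one_le_iff_ne_zero.mpr (by positivity)
    exact_mod_cast this
  have hZ2 : Z ≤ 144 * L * n / (κ ^ 2 * ρ) := by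
    rw [hZ]
    push_cast
    calc (Nl : ℝ) * (((A : ℝ) + 1) * ((B : ℝ) + 1)) ≤ (4 * L) * ((4 / κ) * (9 * n / (κ * ρ))) := by
          gcongr
      _ = _ := by field_simp; ring
  have h1 : Real.exp 1 * (Z + 1 + s) / s ≤ 400 * L ^ 2 / κ ^ 2 := by
    rw [div_le_iff₀ hs0]
    have e1 : Z ≤ 72 * L ^ 2 / κ ^ 2 * s := by
      refine hZ2.trans ?_
      have h2 : n ≤ a * ρ * s / 2 := by
        have : (n : ℝ) * 1 ≤ n * T := by gcongr
        linarith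
      calc 144 * L * n / (κ ^ 2 * ρ) ≤ 144 * L * (a * ρ * s / 2) / (κ ^ 2 * ρ) := by gcongr
        _ = 72 * L * a / κ ^ 2 * s := by field_simp; ring
        _ ≤ 72 * L * L / κ ^ 2 * s := by gcongr
        _ = _ := by ring
    have e2 : (1 : ℝ) ≤ L ^ 2 / κ ^ 2 := by
      rw [le_div_iff₀ (by positivity), one_mul]
      have h3 : κ ^ 2 ≤ 1 := pow_le_one₀ hκ.le hκ1
      have h4 : 1 ≤ L ^ 2 := one_le_pow₀ hL1
      linarith
    have e3 : (s : ℝ) ≤ L ^ 2 / κ ^ 2 * s := le_mul_of_one_le_left hs0.le e2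
    have e4 : Z + 1 + s ≤ 2 * Z + s := by linarith
    have e5 : 72 * L ^ 2 / κ ^ 2 * s = 72 * (L ^ 2 / κ ^ 2 * s) := by ring
    have e6 : 400 * L ^ 2 / κ ^ 2 * s = 400 * (L ^ 2 / κ ^ 2 * s) := by ring
    have e7 := Real.exp_one_lt_d9
    have e8 : Z + 1 + s ≤ 145 * (L ^ 2 / κ ^ 2 * s) := by linarith
    rw [e6]
    have e9 : 0 < L ^ 2 / κ ^ 2 * s := by positivity
    calc Real.exp 1 * (Z + 1 + s) ≤ 2.7182818286 * (145 * (L ^ 2 / κ ^ 2 * s)) := by gcongr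
      _ ≤ 400 * (L ^ 2 / κ ^ 2 * s) := by linarith
  calc (Real.exp 1 * (Z + 1 + s) / s) ^ s ≤ (400 * L ^ 2 / κ ^ 2) ^ s := by gcongr
    _ ≤ Real.exp (c * ρ) ^ s := by gcongr
    _ = Real.exp (s * (c * ρ)) := by rw [← Real.exp_nat_mul]
    _ ≤ _ := by
        apply Real.exp_le_exp.mpr
        rw [le_div_iff₀ ha0]
        calc (s : ℝ) * (c * ρ) * a = c * (a * ρ * s) := by ring
          _ ≤ c * (3 * n * T) := by gcongr
          _ = _ := by ring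

end Pool.Agent.Helper79.LC
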