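import Pool.Agent.Helper79.LD.Scl
import Pool.Agent.Helper79.LC.Prep

/-!
Choice of a scale with few roots beyond it, and the final numerical factor.
-/

open Finset

namespace Pool.Agent.Helper79.LC

lemma pow_sum_le (z : ℝ) (hz : 0 ≤ z) (a A : ℕ) :
    ∑ i ∈ range A, (if (2 : ℝ) ^ (a + i) < z then (2 : ℝ) ^ (a + i) else 0) ≤ 2 * z := by
  suffices h : ∑ i ∈ range A, (if (2 : ℝ) ^ (a + i) < z then (2 : ℝ) ^ (a + i) else 0) ≤ 2 * z ∧
      ∑ i ∈ range A, (if (2 : ℝ) ^ (a + i) < z then (2 : ℝ) ^ (a + i) else 0) ≤ 2 ^ (a + A) from h.1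
  induction A with
  | zero => simp [hz]
  | succ A ih =>
    rw [sum_range_succ]
    have h0 : (0 : ℝ) < 2 ^ (a + A) := by positivity
    have h1 : (2 : ℝ) ^ (a + (A + 1)) = 2 * 2 ^ (a + A) := by
      rw [← add_assoc, pow_succ]; ring
    split_ifs with h
    · constructor
      · linarith [ih.2]
      · rw [h1]; linarith [ih.2]
    · constructor
      · linarith [ih.1]
      · rw [h1]; linarith [ih.2]

lemma sum_max_le (S : Finset ℂ) : ∑ a ∈ S, (max 1 ‖a‖ - 1) ≤ ∏ a ∈ S, max 1 ‖a‖ - 1 := by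
  classical
  induction S using Finset.induction_on with
  | empty => simp
  | insert a S ha ih =>
    rw [sum_insert ha, prod_insert ha]
    have h1 : (1 : ℝ) ≤ ∏ a ∈ S, max 1 ‖a‖ := by
      have h2 : 0 ≤ ∑ a ∈ S, (max 1 ‖a‖ - 1) :=
        sum_nonneg fun b _ => by linarith [le_max_left 1 ‖b‖]
      linarith
    have h2 := le_max_left 1 ‖a‖
    nlinarith

lemma card_out_sc {ρ : ℝ} (hρ : 0 ≤ ρ) {n : ℕ} (hn : 1 ≤ n) (S : Finset ℂ) :
    Multiset.card (out (sc (1 + ρ / n)⁻¹ S.val)) = #(S.filter fun a => ρ < n * (‖a‖ - 1)) := by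
  have hn0 : (0 : ℝ) < n := by exact_mod_cast hn
  have hpos : 0 < 1 + ρ / n := by positivity
  rw [out, sc, Multiset.filter_map, Multiset.card_map]
  have h1 : S.val.filter ((fun a : ℂ => 1 < ‖a‖) ∘ fun a => (((1 + ρ / n)⁻¹ : ℝ) : ℂ) * a) =
      S.val.filter fun a => ρ < n * (‖a‖ - 1) := by
    apply Multiset.filter_congr
    intro a _
    simp only [Function.comp]
    rw [norm_mul, Complex.norm_real, Real.norm_of_nonneg (by positivity), inv_mul_eq_div,
      lt_div_iff₀ hpos, one_mul]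
    constructor
    · intro h
      have h2 : ρ / n < ‖a‖ - 1 := by linarith
      rw [div_lt_iff₀ hn0] at h2
      linarith
    · intro h
      have h2 : ρ / n < ‖a‖ - 1 := by
        rw [div_lt_iff₀ hn0]; linarith
      linarith
  rw [h1]
  rfl

/-- A scale with few roots beyond it. -/
theorem pigeon {f : Polynomial ℤ} (hf : Sp f) {n : ℕ} (hn : 1 ≤ n) {T : ℝ} (hfT : MM f ≤ T)
    (a A : ℕ) (hA : 1 ≤ A) : ∃ i ∈ range A, (A : ℝ) * 2 ^ (a + i) *
      Multiset.card (out (sc (1 + 2 ^ (a + i) / n)⁻¹ (rt f).val)) ≤ 2 * n * T := by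
  have hn0 : (0 : ℝ) < n := by exact_mod_cast hn
  have hA0 : (0 : ℝ) < A := by exact_mod_cast hA
  have h1 : ∑ i ∈ range A, (2 : ℝ) ^ (a + i) *
      Multiset.card (out (sc (1 + 2 ^ (a + i) / n)⁻¹ (rt f).val)) ≤ 2 * n * (MM f - 1) := by
    have h2 : ∀ i ∈ range A, (2 : ℝ) ^ (a + i) *
        Multiset.card (out (sc (1 + 2 ^ (a + i) / n)⁻¹ (rt f).val)) =
        ∑ z ∈ rt f, if (2 : ℝ) ^ (a + i) < n * (max 1 ‖z‖ - 1) then (2 : ℝ) ^ (a + i) else 0 := by
      intro i _
      rw [card_out_sc (by positivity) hn, ← sum_filter, sum_const, nsmul_eq_mul, mul_comm]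
      congr 2
      apply congrArg Finset.card
      apply filter_congr
      intro z _
      have hp : (0 : ℝ) < 2 ^ (a + i) := by positivity
      constructor
      · intro h
        exact h.trans_le (by gcongr; exact le_max_right _ _)
      · intro h
        rcases le_total ‖z‖ 1 with h3 | h3
        · rw [max_eq_left h3] at h
          norm_num at h
          linarith
        · rwa [max_eq_right h3] at h
    rw [sum_congr rfl h2, sum_comm]
    have h3 : ∀ z ∈ rt f, ∑ i ∈ range A, (if (2 : ℝ) ^ (a + i) < n * (max 1 ‖z‖ - 1) then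
        (2 : ℝ) ^ (a + i) else 0) ≤ 2 * (n * (max 1 ‖z‖ - 1)) := by
      intro z _
      apply pow_sum_le
      have := le_max_left 1 ‖z‖
      have : 0 ≤ max 1 ‖z‖ - 1 := by linarith
      positivity
    refine (sum_le_sum h3).trans ?_
    have h4 := sum_max_le (rt f)
    rw [← hf.MM_eq] at h4
    calc ∑ z ∈ rt f, 2 * (n * (max 1 ‖z‖ - 1)) = 2 * n * ∑ z ∈ rt f, (max 1 ‖z‖ - 1) := by
          rw [mul_sum]
          exact sum_congr rfl fun z _ => by ring
      _ ≤ 2 * n * (MM f - 1) := by gcongr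
  have h2 : ∑ i ∈ range A, (2 : ℝ) ^ (a + i) *
      Multiset.card (out (sc (1 + 2 ^ (a + i) / n)⁻¹ (rt f).val)) ≤
      ∑ i ∈ range A, 2 * n * T / A := by
    rw [sum_const, card_range, nsmul_eq_mul]
    have : (A : ℝ) * (2 * n * T / A) = 2 * n * T := by field_simp
    rw [this]
    refine h1.trans ?_
    have : MM f - 1 ≤ T := by linarith
    gcongr
  obtain ⟨i, hi, h3⟩ := exists_le_of_sum_le ⟨0, mem_range.mpr (by omega)⟩ h2
  refine ⟨i, hi, ?_⟩
  rw [le_div_iff₀ hA0] at h3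
  linarith

end Pool.Agent.Helper79.LC
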